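import Pool.Agent.Lib.MP_94aef8_gt.L.Lim2

/-! The estimate on one ball. -/

open scoped Manifold ContDiff Topology ENNReal
open Matrix Filter Set MeasureTheory Real

namespace Pool.Agent.Lib.MP_94aef8_gt.LL

open FL E2

theorem bube_sub {A T : ℝ} (h : A ≤ T) : OP A 0 ⊆ OT T := fun _ hx => OT_mono h hx.1

theorem bube_bound {C1 N β μ T k : ℝ} {h : Tn} (H : BH C1 N 1 β μ T k h) {x : E4}
    (hx : x ∈ OT T) : ipT (GB β) h h x ≤ |C1| := by
  have h1 : 1 < R3 x := hx.1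
  have h2 := H.b0 x hx
  have h3 : C1 * 1 / R3 x ≤ |C1| := by
    rw [mul_one, div_le_iff₀ (by linarith)]
    have := le_abs_self C1
    have := abs_nonneg C1
    nlinarith
  exact h2.trans h3

/-- By contradiction: data for every `N = i + 1` (`choose`), `ipT_lim`, and dominated convergence
(`tendsto_lintegral_filter_of_dominated_convergence` or the version for almost everywhere measurable
functions) on `OP A 0`, which has finite volume and lies in `OT (T i)` for `A ≤ i + 1`; the bound is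
`|C1|`, the functions are continuous on `OT (T i)` by `smo_ipT`. -/
theorem bubE1 (A C1 : ℝ) {e : ℝ} (he : 0 < e) : ∃ N : ℝ, 1 ≤ N ∧ ∀ (β μ T k : ℝ) (h : Tn),
    BH C1 N 1 β μ T k h →
    ∫⁻ y in OP A 0, ENNReal.ofReal (ipT (GB β) h h y) ≤ ENNReal.ofReal e := by
  by_contra hcon
  have hall : ∀ i : ℕ, ∃ (β μ T k : ℝ) (h : Tn), BH C1 (i + 1) 1 β μ T k h ∧
      ENNReal.ofReal e < ∫⁻ y in OP A 0, ENNReal.ofReal (ipT (GB β) h h y) := by
    intro i
    by_contra hno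
    apply hcon
    refine ⟨(i : ℝ) + 1, by have : (0 : ℝ) ≤ i := Nat.cast_nonneg i; linarith, ?_⟩
    intro β μ T k h H
    by_contra hlt
    exact hno ⟨β, μ, T, k, h, H, not_le.mp hlt⟩
  choose β μ T k h H hlt using hall
  have hev : ∀ᶠ i : ℕ in atTop, A ≤ T i := by
    obtain ⟨n, hn⟩ := exists_nat_ge A
    filter_upwards [eventually_ge_atTop n] with i hi
    have h1 := (H i).hT
    have h2 : (n : ℝ) ≤ i := by exact_mod_cast hi
    linarith
  have hlim : Tendsto (fun i => ∫⁻ y in OP A 0, ENNReal.ofReal (ipT (GB (β i)) (h i) (h i) y))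
      atTop (𝓝 (∫⁻ _ in OP A 0, (0 : ℝ≥0∞))) := by
    refine tendsto_lintegral_filter_of_dominated_convergence' (fun _ => ENNReal.ofReal |C1|)
      ?_ ?_ ?_ ?_
    · filter_upwards [hev] with i hi
      have hc : ContinuousOn (ipT (GB (β i)) (h i) (h i)) (OP A 0) :=
        ((smo_ipT (GB_good_OT (β i) (T i)) (H i).sy.smooth (H i).sy.smooth).continuousOn).mono
          (bube_sub hi)
      exact (hc.aemeasurable (measurableSet_OP A 0)).ennreal_ofReal
    · filter_upwards [hev] with i hi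
      filter_upwards [ae_restrict_mem (measurableSet_OP A 0)] with y hy
      exact ENNReal.ofReal_le_ofReal (bube_bound (H i) (bube_sub hi hy))
    · rw [setLIntegral_const]
      exact ENNReal.mul_ne_top ENNReal.ofReal_ne_top (volume_OP_lt A 0).ne
    · filter_upwards [ae_restrict_mem (measurableSet_OP A 0)] with y hy
      have := ENNReal.tendsto_ofReal (ipT_lim H hy.1.1)
      rwa [ENNReal.ofReal_zero] at this
  rw [lintegral_zero] at hlim
  have h0 : (0 : ℝ≥0∞) < ENNReal.ofReal e := ENNReal.ofReal_pos.mpr he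
  obtain ⟨i, hi⟩ := (hlim.eventually (gt_mem_nhds h0)).exists
  exact lt_asymm hi (hlt i)

theorem bube_one (G : Tn) : (fun y => (1 : ℝ) • G y) = G := by
  funext y
  rw [one_smul]

theorem bube_ipT (G h : Tn) (d : ℝ) (x : E4) :
    ipT G (fun y => d • h y) (fun y => d • h y) x = d ^ 2 * ipT G h h x := by
  unfold ipT
  rw [ipM_smul, sq]

theorem bube_sq {m : ℝ} (hm : 0 < m) : ((√m)⁻¹) ^ 2 = m⁻¹ := by
  rw [inv_pow, Real.sq_sqrt hm.le]

theorem bube_lint {S : Set E4} {F : E4 → ℝ} {c : ℝ} (hc : 0 ≤ c) :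
    ∫⁻ y in S, ENNReal.ofReal (c * F y) = ENNReal.ofReal c * ∫⁻ y in S, ENNReal.ofReal (F y) := by
  rw [← lintegral_const_mul' _ _ ENNReal.ofReal_ne_top]
  refine lintegral_congr fun y => ?_
  rw [ENNReal.ofReal_mul hc]

/-- Scaling: `h' = d • h` with `d ^ 2 = m⁻¹` (`Pop_iter_scale`, `ipD_scale` with `c = 1`,
`ipM_smul`, `lintegral_const_mul'`). -/
theorem BH.scale {C1 N m β μ T k : ℝ} {h : Tn} (H : BH C1 N m β μ T k h) (hm : 0 < m) :
    BH C1 N 1 β μ T k fun y => (√m)⁻¹ • h y := by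
  have hmi : 0 < m⁻¹ := inv_pos.mpr hm
  refine ⟨H.hβ, H.μ0, H.hμ, H.hT, H.hk, ⟨fun i j => ?_, fun p hp => ?_⟩, ?_, ?_, ?_, ?_⟩
  · exact contDiffOn_const.mul (H.sy.smooth i j)
  · rw [Matrix.transpose_smul, H.sy.symm p hp]
  · intro τ hτ x hx
    have e := H.inv τ hτ x hx
    unfold pull at e ⊢
    rw [Matrix.mul_smul, Matrix.smul_mul, e]
  · intro x hx
    rw [bube_ipT, bube_sq hm]
    have h1 := H.b0 x hx
    calc m⁻¹ * ipT (GB β) h h x ≤ m⁻¹ * (C1 * m / R3 x) := mul_le_mul_of_nonneg_left h1 hmi.le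
      _ = C1 * 1 / R3 x := by field_simp
  · intro x hx
    have e := FL.ipD_scale (c := 1) one_ne_zero (√m)⁻¹ (GB β) h
    rw [bube_one] at e
    rw [e]
    have h1 := H.b1 x hx
    simp only [inv_one, one_pow, one_mul]
    rw [bube_sq hm, abs_mul, abs_of_pos hmi]
    calc R3 x ^ 2 * (m⁻¹ * |ipD (GB β) h h x|) = m⁻¹ * (R3 x ^ 2 * |ipD (GB β) h h x|) := by ring
      _ ≤ m⁻¹ * (C1 * m / R3 x) := mul_le_mul_of_nonneg_left h1 hmi.le
      _ = C1 * 1 / R3 x := by field_simp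
  · intro j hj1 hj5 t
    have e := Pop_iter_scale (c := 1) one_ne_zero μ (√m)⁻¹ (GB β) h j
    rw [bube_one] at e
    simp only [inv_one, one_pow, one_mul] at e
    rw [e]
    simp only [bube_ipT]
    rw [bube_sq hm, bube_lint hmi.le]
    calc _ ≤ ENNReal.ofReal m⁻¹ * ENNReal.ofReal (m / N) :=
          mul_le_mul_right (H.ib j hj1 hj5 t) _
      _ = ENNReal.ofReal (1 / N) := by
          rw [← ENNReal.ofReal_mul hmi.le]
          congr 1
          field_simp

theorem bubE (A C1 : ℝ) {e : ℝ} (he : 0 < e) : ∃ N : ℝ, 1 ≤ N ∧ ∀ (m β μ T k : ℝ) (h : Tn),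
    0 < m → BH C1 N m β μ T k h →
    ∫⁻ y in OP A 0, ENNReal.ofReal (ipT (GB β) h h y) ≤ ENNReal.ofReal (e * m) := by
  obtain ⟨N, hN, hb⟩ := bubE1 A C1 he
  refine ⟨N, hN, fun m β μ T k h hm H => ?_⟩
  have h1 := hb β μ T k _ (H.scale hm)
  simp only [bube_ipT] at h1
  have hmi : 0 < m⁻¹ := inv_pos.mpr hm
  rw [bube_sq hm, bube_lint hmi.le] at h1
  have h2 : ENNReal.ofReal m * ENNReal.ofReal m⁻¹ = 1 := by
    rw [← ENNReal.ofReal_mul hm.le, mul_inv_cancel₀ hm.ne', ENNReal.ofReal_one]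
  calc _ = ENNReal.ofReal m * (ENNReal.ofReal m⁻¹ *
        ∫⁻ y in OP A 0, ENNReal.ofReal (ipT (GB β) h h y)) := by rw [← mul_assoc, h2, one_mul]
    _ ≤ ENNReal.ofReal m * ENNReal.ofReal e := mul_le_mul_right h1 _
    _ = ENNReal.ofReal (e * m) := by rw [← ENNReal.ofReal_mul hm.le, mul_comm]

end Pool.Agent.Lib.MP_94aef8_gt.LL
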