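import Pool.Agent.Lib.MP_94aef8_gt.L.GBf
import Pool.Agent.Lib.MP_94aef8_gt.F.Hs2
import Pool.Agent.Lib.MP_94aef8_gt.F.LinB

/-! Change of variables for the affine patches. -/

open scoped Manifold ContDiff Topology ENNReal
open Matrix Filter Set MeasureTheory Real

namespace Pool.Agent.Lib.MP_94aef8_gt.LL

open FL E2

variable {x0 : E4} {σ : ℝ}

theorem aff_zero (x0 : E4) (σ : ℝ) : aff x0 σ 0 = x0 := by
  simp [aff]

theorem contDiff_aff (x0 : E4) (σ : ℝ) : ContDiff ℝ ∞ (aff x0 σ) := by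
  exact contDiff_const.add (contDiff_id.const_smul σ)

theorem isOpen_aff_image (hσ : 0 < σ) {S : Set E4} (hS : IsOpen S) : IsOpen (aff x0 σ '' S) := by
  exact ((isOpenMap_add_left x0).comp (isOpenMap_smul₀ hσ.ne')) S hS

theorem smT_aff {h : Tn} {U V : Set E4} (hh : SmT h U) (hm : ∀ y ∈ V, aff x0 σ y ∈ U) :
    SmT (fun y => h (aff x0 σ y)) V := by
  exact fun i j => (hh i j).comp (contDiff_aff x0 σ).contDiffOn hm

/-- `lintegral_image_eq_lintegral_abs_det_fderiv_mul`, or `Measure.addHaar_image_homothety`-type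
lemmas (`Measure.map_addHaar_smul`, translation invariance); no measurability of `F` is needed
because `aff x0 σ` is a measurable equivalence. -/
theorem lint_aff (hσ : 0 < σ) {S : Set E4} (hS : MeasurableSet S) (F : E4 → ℝ≥0∞) :
    ENNReal.ofReal (σ ^ 4) * ∫⁻ y in S, F (aff x0 σ y) = ∫⁻ z in aff x0 σ '' S, F z := by
  have hd : ∀ y ∈ S, HasFDerivWithinAt (aff x0 σ) (σ • ContinuousLinearMap.id ℝ E4) S y :=
    fun y _ => (((hasFDerivAt_id y).const_smul σ).const_add x0).hasFDerivWithinAt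
  have hi : InjOn (aff x0 σ) S := fun y _ z _ h =>
    smul_right_injective E4 hσ.ne' (add_left_cancel h)
  have hdet : (σ • ContinuousLinearMap.id ℝ E4).det = σ ^ 4 := by
    simp [ContinuousLinearMap.det, LinearMap.det_smul]
  rw [lintegral_image_eq_lintegral_abs_det_fderiv_mul volume hS hd hi F, hdet,
    abs_of_pos (by positivity), lintegral_const_mul' _ _ ENNReal.ofReal_ne_top]

/-- The integral over the cube of a function continuous on the larger cube. -/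
theorem int_aff_le (hσ : 0 < σ) (hσ1 : σ ≤ 1) {T b : ℝ} (hT : ∀ y ∈ Kc 3, aff x0 σ y ∈ OT T)
    {F : E4 → ℝ} (hF : ContinuousOn F (OT T)) (h0 : ∀ z ∈ OT T, 0 ≤ F z) (hb : 0 ≤ b)
    (h : ∀ t, ∫⁻ z in OP T t, ENNReal.ofReal (F z) ≤ ENNReal.ofReal b) :
    ∫ y in Q 2, F (aff x0 σ y) ≤ (σ ^ 4)⁻¹ * b := by
  have hQ : ∀ y ∈ Q 3, aff x0 σ y ∈ OT T := fun y hy => hT y (Q_sub_Kc 3 hy)
  have h23 : Q 2 ⊆ Q 3 := Q_mono (by norm_num)
  have hi : IntegrableOn (fun y => F (aff x0 σ y)) (Q 2) :=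
    integrableOn_Q (R := 3) (by norm_num) (hF.comp (contDiff_aff x0 σ).continuous.continuousOn hQ)
  have hn : 0 ≤ᵐ[volume.restrict (Q 2)] fun y => F (aff x0 σ y) :=
    (ae_restrict_iff' (isOpen_Q 2).measurableSet).2
      (Eventually.of_forall fun y hy => h0 _ (hQ y (h23 hy)))
  have hsub : aff x0 σ '' Q 2 ⊆ OP T (x0 3 - 2) := by
    rintro _ ⟨y, hy, rfl⟩
    have h1 := abs_lt.1 (hy 3)
    have h2 : aff x0 σ y 3 = x0 3 + σ * y 3 := by simp [aff]
    refine ⟨hQ y (h23 hy), ?_, ?_⟩ <;> rw [h2] <;> nlinarith [Real.pi_gt_three]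
  have h3 := (lint_aff (x0 := x0) hσ (isOpen_Q 2).measurableSet fun z => ENNReal.ofReal (F z)).trans_le
    ((lintegral_mono_set hsub).trans (h _))
  have h4 : 0 < σ ^ 4 := by positivity
  rw [← ofReal_integral_eq_lintegral_ofReal hi hn, ← ENNReal.ofReal_mul h4.le,
    ENNReal.ofReal_le_ofReal_iff hb] at h3
  rwa [le_inv_mul_iff₀ h4]

theorem volume_Q_real : ∃ v : ℝ, 0 ≤ v ∧ ∀ (F : E4 → ℝ) (a : ℝ), (∀ y ∈ Q 2, 0 ≤ F y ∧ F y ≤ a) →
    ∫ y in Q 2, F y ≤ v * a := by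
  have hv : volume (Q 2) < ⊤ :=
    (measure_mono (Q_sub_Kc 2)).trans_lt (isCompact_Kc 2).measure_lt_top
  refine ⟨volume.real (Q 2), measureReal_nonneg, fun F a h => ?_⟩
  have h1 := norm_setIntegral_le_of_norm_le_const (f := F) (C := a) hv fun y hy => by
    rw [Real.norm_eq_abs, abs_of_nonneg (h y hy).1]
    exact (h y hy).2
  rw [mul_comm]
  exact (le_abs_self _).trans h1

/-- `hsM_zero_eq`, `ipM_cmp` (the bounds of `GoodB` with the empty word), `smo_ipT`. -/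
theorem hsM_le_int (C0 : ℝ) : ∃ K, 0 ≤ K ∧ ∀ G k : Tn, GoodB C0 G → SmT k (Q 3) →
    hsM 0 (Q 2) k ≤ K * ∫ y in Q 2, ipT G k k y := by
  obtain ⟨K, hK, h⟩ := ipM_cmp C0
  refine ⟨K, hK.le, fun G k hG hk => ?_⟩
  have h23 : Q 2 ⊆ Q 3 := Q_mono (by norm_num)
  have hc : ContinuousOn (fun y => fro (k y)) (Q 3) :=
    continuousOn_finsetSum _ fun i _ => continuousOn_finsetSum _ fun j _ =>
      (hk i j).continuousOn.pow 2
  rw [hsM_zero_eq (R := 3) (by norm_num) hk, ← integral_const_mul]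
  refine setIntegral_mono_on (integrableOn_Q (R := 3) (by norm_num) hc)
    ((integrableOn_Q (R := 3) (by norm_num) (smo_ipT hG.good hk hk).continuousOn).const_mul K)
    (isOpen_Q 2).measurableSet fun y hy => ?_
  exact (h (G y) (k y) (hG.good.pos y (h23 hy)) (hG.ell y (h23 hy))
    fun i j => hG.bdd i j [] (Nat.zero_le _) y (h23 hy)).2

end Pool.Agent.Lib.MP_94aef8_gt.LL
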