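import Pool.Agent.Lib.MP_94aef8_gt.C.Loc2
import Pool.Agent.Lib.MP_94aef8_gt.C.Vol2
import Pool.Agent.Lib.MP_94aef8_gt.F.Patch2
import Pool.Agent.Lib.MP_94aef8_gt.K.Main

/-! Theorems of other blocks used in the linear estimate. -/

open scoped Manifold ContDiff Topology ENNReal
open Matrix Filter Set MeasureTheory Real

namespace Pool.Agent.Lib.MP_94aef8_gt.LL

open FL E2

/-- The exterior of the bolt. -/
def OO : Set E4 := {x | 1 < R3 x}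

theorem xK (h : Tn) (sm : ∀ i j, ContDiffOn ℝ 3 (fun x => h x i j) {x | 1 < R3 x})
    (sy : ∀ x, 1 < R3 x → (h x).IsSymm) (eq : ∀ x, 1 < R3 x → lich (GB 0) h x = 0)
    (it : ∀ a x, 1 < R3 x → pull (tsh a) h x = h x)
    (ir : ∀ a x, 1 < R3 x → pull (rot a) h x = h x)
    (i1 : ∀ x, 1 < R3 x → pull fl1 h x = h x) (i2 : ∀ x, 1 < R3 x → pull fl2 h x = h x)
    (bd : ∃ C, ∀ x, 1 < R3 x → R3 x * (ipT (GB 0) h h x + R3 x ^ 2 * ipD (GB 0) h h x) ≤ C) :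
    ∀ x, 1 < R3 x → h x = 0 := thmK h sm sy eq it ir i1 i2 bd

/-- The density of `NY2`. -/
noncomputable def dY {M : Type} [TopologicalSpace M] [ChartedSpace E4 M] (g : M → Mat) (s : M → ℝ)
    (f : M → Mat) (x : M) : ℝ :=
  ∑ i ∈ Finset.range 5, s x ^ (4 * i + 2) * n0 g ((GP g)^[i] f) x

theorem xPatch (C0 : ℝ) : ∃ K, 0 ≤ K ∧ ∀ (Z : CM) (g h : Z.M → Mat) (s : Z.M → ℝ) (Θ : E4 → Z.M)
    (σ : ℝ), GoodT g → SmG h → Continuous s → (∀ x, 0 < s x) → GPt g s C0 Θ σ →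
    n0 g h (Θ 0) + σ ^ 2 * |GD g h h (Θ 0)| ≤
      K * ((∫ y in Q 2, n0 g h (Θ y)) + σ ^ 2 * ∫ y in Q 2, dY g s (GP g h) (Θ y)) := by
  obtain ⟨K, h0, h1⟩ := patch_pt C0
  exact ⟨K, h0, fun Z g h s Θ σ a b c d e => h1 Z g h s Θ σ a c d e b⟩

end Pool.Agent.Lib.MP_94aef8_gt.LL
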