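import Pool.Agent.Lib.MP_94aef8_gt.L.Ext
import Pool.Agent.Lib.MP_94aef8_gt.H.GoodC
import Pool.Agent.Lib.MP_94aef8_gt.J.Fam
import Pool.Agent.Lib.MP_94aef8_gt.F.Cv

/-! The family of metrics of the ball. -/

open scoped Manifold ContDiff Topology ENNReal
open Matrix Filter Set MeasureTheory Real

namespace Pool.Agent.Lib.MP_94aef8_gt.LL

open FL E2

theorem continuous_R3 : Continuous R3 := by
  unfold R3 u01
  fun_prop

theorem isOpen_OO : IsOpen OO := isOpen_lt continuous_const continuous_R3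

theorem isOpen_OT (T : ℝ) : IsOpen (OT T) := isOpen_OO.inter (isOpen_lt continuous_R3 continuous_const)

theorem OT_mono {T T' : ℝ} (h : T ≤ T') : OT T ⊆ OT T' := fun _ hx => ⟨hx.1, hx.2.trans_le h⟩

theorem measurableSet_OP (T t : ℝ) : MeasurableSet (OP T t) :=
  (isOpen_OT T).measurableSet.inter
    (measurableSet_Ico.preimage (by fun_prop : Continuous fun x : E4 => x 3).measurable)

/-- `OP T t` is bounded: `|x i| ≤ R3 x` for `i < 3`; it lies in a cube `Kc r`. -/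
theorem volume_OP_lt (T t : ℝ) : volume (OP T t) < ⊤ := by
  refine (measure_mono fun x hx i => ?_).trans_lt (isCompact_Kc (|T| + |t| + 4 * π)).measure_lt_top
  obtain ⟨⟨-, h1⟩, h2, h3⟩ := hx
  have h4 : ∀ a : ℝ, a ^ 2 ≤ u01 x + x 2 ^ 2 → |a| ≤ |T| + |t| + 4 * π := fun a ha => by
    have h5 : |a| ≤ R3 x := Real.abs_le_sqrt ha
    linarith [le_abs_self T, abs_nonneg t, pi_pos]
  have h5 := sq_nonneg (x 0)
  have h6 := sq_nonneg (x 1)
  have h7 := sq_nonneg (x 2)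
  fin_cases i
  · exact h4 (x 0) (by rw [u01]; linarith)
  · exact h4 (x 1) (by rw [u01]; linarith)
  · exact h4 (x 2) (by rw [u01]; linarith)
  · refine (abs_le (a := x 3)).2 ⟨?_, ?_⟩ <;>
      linarith [le_abs_self t, neg_abs_le t, abs_nonneg T, pi_pos]

/-- `Hb.GSW_pos`. -/
theorem GB_pos (β : ℝ) {x : E4} (hx : 1 < R3 x) : (GB β x).PosDef := Hb.GSW_pos zero_le_one hx _ _ x

theorem gbf_vv {u v : ℝ → E4 → Fin 4 → ℝ} {q : ℝ × E4} (hu : ∀ i, SmA (fun a y => u a y i) q)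
    (hv : ∀ i, SmA (fun a y => v a y i) q) : SmM (fun a y => vecMulVec (u a y) (v a y)) q :=
  fun i j => (hu i).mul (hv j)

/-- Joint smoothness in the twist rate and the point (`Hb.R3_smooth`; unfold `GB`, `GSW`, `sq1`,
`sym2`, `ee`, `l01` entry by entry, or use `SmM.add`, `SmM.smul`). -/
theorem GB_smM (β : ℝ) {x : E4} (hx : 1 < R3 x) : SmM GB (β, x) := by
  have h0 : 0 < R3 x := one_pos.trans hx
  have hR : SmA (fun (_ : ℝ) y => R3 y) (β, x) :=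
    ContDiffAt.comp (g := R3) (f := Prod.snd) (β, x) (Hb.R3_smooth h0) contDiffAt_snd
  have hc : ∀ i, SmA (fun (_ : ℝ) y => y i) (β, x) := fun i => by
    unfold SmA
    fun_prop
  have hb : SmA (fun a y => a * chiT (R3 y)) (β, x) :=
    ContDiffAt.mul contDiffAt_fst (ContDiffAt.comp (g := smoothTransition) (β, x)
      smoothTransition.contDiffAt ((contDiffAt_const.mul hR).sub contDiffAt_const))
  have hk : ∀ M : Mat, SmM (fun (_ : ℝ) _ => M) (β, x) := fun M i j => SmA.const _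
  have h1 : ∀ i, SmA (fun (_ : ℝ) y => ![y 0, y 1, y 2, 0] i) (β, x) := fun i => by
    fin_cases i
    exacts [hc 0, hc 1, hc 2, SmA.const 0]
  have h2 : ∀ i, SmA (fun (_ : ℝ) y => l01 y i) (β, x) := fun i => by
    fin_cases i
    exacts [(hc 1).neg, hc 0, SmA.const 0, SmA.const 0]
  have h3 : ∀ i, SmA (fun (_ : ℝ) (_ : E4) => ee 3 i) (β, x) := fun i => SmA.const _
  have h4 : SmA (fun (_ : ℝ) y => 1 / ((R3 y - 1) * R3 y ^ 2)) (β, x) :=
    ContDiffAt.div contDiffAt_const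
      ((ContDiffAt.sub hR contDiffAt_const).mul (ContDiffAt.pow hR 2))
      (mul_pos (sub_pos.2 hx) (pow_pos h0 2)).ne'
  have h5 : SmA (fun a y => 1 - 1 / R3 y + (a * chiT (R3 y)) ^ 2 * u01 y) (β, x) :=
    (ContDiffAt.sub contDiffAt_const (ContDiffAt.div contDiffAt_const hR h0.ne')).add
      ((ContDiffAt.pow hb 2).mul ((ContDiffAt.pow (hc 0) 2).add (ContDiffAt.pow (hc 1) 2)))
  exact (((hk _).add (SmM.smul h4 (gbf_vv h1 h1))).add (SmM.smul h5 (hk _))).add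
    (SmM.smul hb ((gbf_vv h2 h3).add (gbf_vv h3 h2)))

theorem GB_good (β : ℝ) : Good (GB β) OO :=
  ⟨isOpen_OO, fun i j _ hx => (GB_smM β hx i j).slice.contDiffWithinAt, fun _ hx => GB_pos β hx⟩

theorem GB_good_OT (β T : ℝ) : Good (GB β) (OT T) :=
  ⟨isOpen_OT T, fun i j _ hx => (GB_smM β hx.1 i j).slice.contDiffWithinAt,
    fun _ hx => GB_pos β hx.1⟩

theorem gbf_cv {ι : Type} {l : Filter ι} {β : ι → ℝ} (hβ : Tendsto β l (𝓝 0)) {x : E4}
    {G : ℝ → Tn} (hG : ∀ γ, SmM G (γ, x)) (m : ℕ) :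
    (cv l x).T m 0 fun a : Option ι => G (a.elim 0 β) := by
  intro a b
  have h1 : ∀ γ : ℝ, ContDiffAt ℝ m (fun y => G γ y a b) x := fun γ =>
    (hG γ a b).slice.of_le (by exact_mod_cast le_top)
  refine ⟨Eventually.of_forall fun i => h1 (β i), h1 0, fun w _ => ?_⟩
  have h2 : ContinuousAt (fun z : ℝ × E4 => pdw w (fun y => G z.1 y a b) z.2) (0, x) :=
    ((hG 0 a b).pdw w).continuousAt
  exact h2.tendsto.comp (hβ.prodMk_nhds tendsto_const_nhds)

/-- The jets of `GB β` depend continuously on `β` (`SmA.pdw`, `SmA.slice`). -/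
theorem GB_cv {ι : Type} {l : Filter ι} {β : ι → ℝ} (hβ : Tendsto β l (𝓝 0)) {x : E4}
    (hx : 1 < R3 x) (m : ℕ) :
    (cv l x).T m 0 fun a : Option ι => GB (a.elim 0 β) := gbf_cv hβ (fun γ => GB_smM γ hx) m

/-- A small closed cube round a point, with uniform bounds for the metrics (`fam_bddW`, `fam_ell`
on `Icc (-1) 1 ×ˢ Kc 3` for the family `fun β y => GB β (aff x0 σ y)`). -/
theorem exists_cube {x0 : E4} (hx : 1 < R3 x0) : ∃ σ T0 C0 : ℝ, 0 < σ ∧ σ ≤ 1 ∧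
    (∀ y ∈ Kc 3, aff x0 σ y ∈ OT T0) ∧
    ∀ β, |β| ≤ 1 → GoodB C0 fun y => GB β (aff x0 σ y) := by
  have h1 : ∀ᶠ σ in 𝓝 (0 : ℝ), ∀ y ∈ Kc 3, aff x0 σ y ∈ OT (R3 x0 + 1) :=
    (isCompact_Kc 3).eventually_forall_of_forall_eventually fun y _ =>
      ContinuousAt.eventually_mem (f := fun z : ℝ × E4 => aff x0 z.1 z.2) (by unfold aff; fun_prop)
        ((isOpen_OT _).mem_nhds (by
          rw [aff, zero_smul, add_zero]
          exact ⟨hx, lt_add_one _⟩))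
  obtain ⟨σ, h2, h3, h4⟩ :=
    ((h1.filter_mono nhdsWithin_le_nhds).and (Ioc_mem_nhdsGT zero_lt_one)).exists
  have hs : ∀ β : ℝ, ∀ y ∈ Kc 3, SmM (fun β y => GB β (aff x0 σ y)) (β, y) := fun β y hy i j =>
    ContDiffAt.comp (g := fun z : ℝ × E4 => GB z.1 z.2 i j)
      (f := fun z : ℝ × E4 => (z.1, aff x0 σ z.2)) (β, y) (GB_smM β (h2 y hy).1 i j)
      (by unfold aff; fun_prop)
  have hK := (isCompact_Icc (a := (-1 : ℝ)) (b := 1)).prod (isCompact_Kc 3)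
  obtain ⟨C, -, hC⟩ := fam_bddW hK (fun q hq => hs q.1 q.2 hq.2) 12
  obtain ⟨c, hc0, hc⟩ := fam_ell hK (fun q hq => hs q.1 q.2 hq.2)
    fun q hq => GB_pos q.1 (h2 q.2 hq.2).1
  refine ⟨σ, _, max C c⁻¹, h3, h4, h2, fun β hβ => ⟨⟨isOpen_Q 3, fun i j y hy =>
    (hs β y (Q_sub_Kc 3 hy) i j).slice.contDiffWithinAt, fun y hy =>
    GB_pos β (h2 y (Q_sub_Kc 3 hy)).1⟩, fun y hy v => ?_, fun a b w hw y hy =>
    (hC (β, y) ⟨abs_le.1 hβ, Q_sub_Kc 3 hy⟩ w hw a b).trans (le_max_left _ _)⟩⟩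
  have h5 := hc (β, y) ⟨abs_le.1 hβ, Q_sub_Kc 3 hy⟩ v
  have h6 : 0 ≤ v ⬝ᵥ v := Finset.sum_nonneg fun i _ => mul_self_nonneg _
  exact ((le_inv_mul_iff₀ hc0).2 h5).trans
    (mul_le_mul_of_nonneg_right (le_max_right _ _) ((mul_nonneg hc0.le h6).trans h5))

end Pool.Agent.Lib.MP_94aef8_gt.LL
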