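import Pool.Agent.Lib.MP_94aef8_gt.L.GBf

/-! The symmetries of the ball and their limits. -/

open scoped Manifold ContDiff Topology ENNReal
open Matrix Filter Set MeasureTheory Real

namespace Pool.Agent.Lib.MP_94aef8_gt.LL

open FL E2

/-- The matrix of the rotation. -/
noncomputable def rotM (a : ℝ) : Mat :=
  !![cos a, -sin a, 0, 0; sin a, cos a, 0, 0; 0, 0, 1, 0; 0, 0, 0, 1]

theorem jac_tsh (a : ℝ) (x : E4) : jac (tsh a) x = 1 := by
  refine Hb.mat_ext_mulVec fun v => ?_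
  refine (Hb.jac_mk4_mulVec (Hb.hfdCoord 0 x) (Hb.hfdCoord 1 x) (Hb.hfdCoord 2 x)
    ((Hb.hfdCoord 3 x).add_const a) v).trans ?_
  funext i
  fin_cases i <;> simp

theorem jac_rot (a : ℝ) (x : E4) : jac (rot a) x = rotM a := by
  refine Hb.mat_ext_mulVec fun v => ?_
  refine (Hb.jac_mk4_mulVec
    (((Hb.hfdCoord 0 x).const_mul (cos a)).sub ((Hb.hfdCoord 1 x).const_mul (sin a)))
    (((Hb.hfdCoord 0 x).const_mul (sin a)).add ((Hb.hfdCoord 1 x).const_mul (cos a)))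
    (Hb.hfdCoord 2 x) (Hb.hfdCoord 3 x) v).trans ?_
  funext i
  fin_cases i <;> simp [rotM, mulVec, dotProduct, Fin.sum_univ_four, sub_eq_add_neg]

theorem jac_fl1 (x : E4) : jac fl1 x = diagonal ![1, -1, 1, -1] := by
  refine Hb.mat_ext_mulVec fun v => ?_
  refine (Hb.jac_mk4_mulVec (Hb.hfdCoord 0 x) (Hb.hfdCoord 1 x).neg (Hb.hfdCoord 2 x)
    (Hb.hfdCoord 3 x).neg v).trans ?_
  funext i
  fin_cases i <;> simp [mulVec_diagonal]

theorem jac_fl2 (x : E4) : jac fl2 x = diagonal ![1, 1, -1, 1] := by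
  refine Hb.mat_ext_mulVec fun v => ?_
  refine (Hb.jac_mk4_mulVec (Hb.hfdCoord 0 x) (Hb.hfdCoord 1 x) (Hb.hfdCoord 2 x).neg
    (Hb.hfdCoord 3 x) v).trans ?_
  funext i
  fin_cases i <;> simp [mulVec_diagonal]

theorem R3_tsh (a : ℝ) (x : E4) : R3 (tsh a x) = R3 x := rfl

theorem R3_rot (a : ℝ) (x : E4) : R3 (rot a x) = R3 x := by
  simp only [R3, u01, rot, Hb.mk4_0, Hb.mk4_1, Hb.mk4_2]
  congr 1
  linear_combination (x 0 ^ 2 + x 1 ^ 2) * cos_sq_add_sin_sq a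

theorem R3_fl1 (x : E4) : R3 (fl1 x) = R3 x := by
  simp only [R3, u01, fl1, Hb.mk4_0, Hb.mk4_1, Hb.mk4_2, neg_sq]

theorem R3_fl2 (x : E4) : R3 (fl2 x) = R3 x := by
  simp only [R3, u01, fl2, Hb.mk4_0, Hb.mk4_1, Hb.mk4_2, neg_sq]

theorem sym_det (a : ℝ) : (rotM a).det = 1 := by
  simp [rotM, det_succ_row_zero, Fin.sum_univ_succ, Fin.succAbove]
  linear_combination cos_sq_add_sin_sq a

theorem ldif_four {k T : ℝ} {τ : E4 → E4} (h : τ ∈ Four k) : LDif τ (OT T) (OT T) := by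
  have key : ∀ {σ : E4 → E4}, (∀ x, ContDiffAt ℝ ∞ σ x) → (∀ x, R3 (σ x) = R3 x) →
      (∀ x, (jac σ x).det ≠ 0) → LDif σ (OT T) (OT T) := fun h1 h2 h3 =>
    ⟨isOpen_OT T, fun x _ => (h1 x).contDiffWithinAt,
      fun x hx => ⟨(h2 x).symm ▸ hx.1, (h2 x).symm ▸ hx.2⟩, fun x _ => h3 x⟩
  rcases h with rfl | rfl | rfl | rfl
  · refine key (fun x => Hb.cdAt_mk4 ?_ ?_ ?_ ?_) (R3_tsh _) fun x => by simp [jac_tsh]
    all_goals fun_prop
  · refine key (fun x => Hb.cdAt_mk4 ?_ ?_ ?_ ?_) (R3_rot _) fun x => by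
      rw [jac_rot, sym_det]
      exact one_ne_zero
    all_goals fun_prop
  · refine key (fun x => Hb.cdAt_mk4 ?_ ?_ ?_ ?_) R3_fl1 fun x => by
      simp [jac_fl1, Fin.prod_univ_four]
    all_goals fun_prop
  · refine key (fun x => Hb.cdAt_mk4 ?_ ?_ ?_ ?_) R3_fl2 fun x => by
      simp [jac_fl2, Fin.prod_univ_four]
    all_goals fun_prop

/-- A one parameter group of affine maps preserving `R3`. -/
structure OneP (τ : ℝ → E4 → E4) (J : ℝ → Mat) : Prop where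
  jac : ∀ a x, jac (τ a) x = J a
  add : ∀ a b x, τ (a + b) x = τ a (τ b x)
  mul : ∀ a b, J (a + b) = J a * J b
  zero : ∀ x, τ 0 x = x
  one : J 0 = 1
  rad : ∀ a x, R3 (τ a x) = R3 x
  cont : ∀ x, Continuous fun a => τ a x
  contJ : Continuous J

theorem oneP_tsh : OneP tsh fun _ => 1 := by
  refine ⟨jac_tsh, fun a b x => ?_, fun _ _ => (one_mul _).symm, fun x => ?_, rfl, R3_tsh,
    fun x => continuous_iff_continuousAt.2 fun a => Hb.cont_mk4 ?_ ?_ ?_ ?_, continuous_const⟩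
  · refine Hb.ext4 rfl rfl rfl ?_
    simp only [tsh, Hb.mk4_3]
    ring
  · exact Hb.ext4 rfl rfl rfl (add_zero _)
  all_goals fun_prop

theorem oneP_rot : OneP rot rotM := by
  refine ⟨jac_rot, fun a b x => ?_, fun a b => ?_, fun x => ?_, ?_, R3_rot,
    fun x => continuous_iff_continuousAt.2 fun a => Hb.cont_mk4 ?_ ?_ ?_ ?_, ?_⟩
  · refine Hb.ext4 ?_ ?_ rfl rfl <;> simp only [rot, Hb.mk4_0, Hb.mk4_1, cos_add, sin_add] <;> ring
  · ext i j
    fin_cases i <;> fin_cases j <;>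
      simp [rotM, mul_apply, Fin.sum_univ_four, cos_add, sin_add] <;> ring
  · refine Hb.ext4 ?_ ?_ rfl rfl <;> simp [rot]
  · ext i j
    fin_cases i <;> fin_cases j <;> simp [rotM]
  · fun_prop
  · fun_prop
  · fun_prop
  · fun_prop
  · refine continuous_matrix fun i j => ?_
    fin_cases i <;> fin_cases j <;> simp [rotM] <;> fun_prop

/-- Invariance under one element gives invariance under its integer powers. -/
theorem OneP.zpow {τ : ℝ → E4 → E4} {J : ℝ → Mat} (hτ : OneP τ J) {h : Tn} {T c : ℝ}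
    (e : ∀ x ∈ OT T, pull (τ c) h x = h x) (p : ℤ) :
    ∀ x ∈ OT T, pull (τ (p * c)) h x = h x := by
  have hm : ∀ a, ∀ x ∈ OT T, τ a x ∈ OT T := fun a x hx => by
    rw [OT, mem_ofPred_eq, hτ.rad]
    exact hx
  let S : AddSubgroup ℝ :=
    { carrier := {s | ∀ x ∈ OT T, (J s)ᵀ * h (τ s x) * J s = h x}
      zero_mem' := fun x _ => by rw [hτ.one, hτ.zero, transpose_one, one_mul, mul_one]
      add_mem' := fun {s t} hs ht x hx => by
        rw [← ht x hx, ← hs _ (hm t x hx), hτ.mul, hτ.add, transpose_mul]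
        simp only [Matrix.mul_assoc]
      neg_mem' := fun {s} hs x hx => by
        have h1 : J s * J (-s) = 1 := by rw [← hτ.mul, add_neg_cancel, hτ.one]
        rw [← hs _ (hm (-s) x hx), ← hτ.add, add_neg_cancel, hτ.zero, ← Matrix.mul_assoc,
          ← Matrix.mul_assoc, ← transpose_mul, Matrix.mul_assoc, Matrix.mul_assoc, h1,
          transpose_one, one_mul, mul_one] }
  have h1 : c ∈ S := fun x hx => by
    have := e x hx
    rwa [pull, hτ.jac] at this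
  intro x hx
  have h2 := S.zsmul_mem h1 p x hx
  rwa [pull, hτ.jac, ← zsmul_eq_mul]

/-- With `p i = ⌊a / c i⌋` one has `p i * c i → a`; `TendstoLocallyUniformlyOn.tendsto_comp`. -/
theorem OneP.lim {τ : ℝ → E4 → E4} {J : ℝ → Mat} (hτ : OneP τ J) {ι : Type} {l : Filter ι}
    [l.NeBot] {h : ι → Tn} {H : Tn} {T c : ι → ℝ} (hT : Tendsto T l atTop)
    (hc : Tendsto c l (𝓝 0)) (hc0 : ∀ i, 0 < c i)
    (e : ∀ i, ∀ x ∈ OT (T i), pull (τ (c i)) (h i) x = h i x)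
    (hH : ∀ a b, ContinuousOn (fun x => H x a b) OO)
    (hl : ∀ a b, TendstoLocallyUniformlyOn (fun i x => h i x a b) (fun x => H x a b) l OO)
    (a : ℝ) {x : E4} (hx : 1 < R3 x) : pull (τ a) H x = H x := by
  have hs : Tendsto (fun i => (⌊a / c i⌋ : ℝ) * c i) l (𝓝 a) := by
    have h1 : Tendsto (fun i => a - c i) l (𝓝 a) := by
      simpa using tendsto_const_nhds.sub hc
    refine tendsto_of_tendsto_of_tendsto_of_le_of_le h1 tendsto_const_nhds (fun i => ?_)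
      fun i => ?_
    · have := (div_lt_iff₀ (hc0 i)).1 (Int.lt_floor_add_one (a / c i))
      linarith
    · exact (le_div_iff₀ (hc0 i)).1 (Int.floor_le (a / c i))
  have hm : ∀ s, τ s x ∈ OO := fun s => by
    rw [OO, mem_ofPred_eq, hτ.rad]
    exact hx
  have h1 : Tendsto (fun i => τ ((⌊a / c i⌋ : ℝ) * c i) x) l (𝓝[OO] (τ a x)) :=
    tendsto_nhdsWithin_iff.2 ⟨((hτ.cont x).tendsto a).comp hs, Eventually.of_forall fun i => hm _⟩
  have h2 : Tendsto (fun i => h i (τ ((⌊a / c i⌋ : ℝ) * c i) x)) l (𝓝 (H (τ a x))) :=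
    tendsto_pi_nhds.2 fun u => tendsto_pi_nhds.2 fun v =>
      (hl u v).tendsto_comp (hH u v _ (hm a)) (hm a) h1
  have h3 : Tendsto (fun i => h i x) l (𝓝 (H x)) :=
    tendsto_pi_nhds.2 fun u => tendsto_pi_nhds.2 fun v => (hl u v).tendsto_at hx
  have h4 := (hτ.contJ.tendsto a).comp hs
  have h5 := (hτ.contJ.matrix_transpose.tendsto a).comp hs
  rw [pull, hτ.jac]
  refine tendsto_nhds_unique ((h5.mul h2).mul h4) (h3.congr' ?_)
  filter_upwards [hT.eventually_gt_atTop (R3 x)] with i hi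
  have h6 := hτ.zpow (e i) ⌊a / c i⌋ x ⟨hx, hi⟩
  rw [pull, hτ.jac] at h6
  exact h6.symm

/-- The same for a single map with constant Jacobian. -/
theorem lim_fix {τ : E4 → E4} {J : Mat} (hJ : ∀ x, jac τ x = J) (hR : ∀ x, R3 (τ x) = R3 x)
    {ι : Type} {l : Filter ι} [l.NeBot] {h : ι → Tn} {H : Tn} {T : ι → ℝ}
    (hT : Tendsto T l atTop) (e : ∀ i, ∀ x ∈ OT (T i), pull τ (h i) x = h i x)
    (hl : ∀ x, 1 < R3 x → Tendsto (fun i => h i x) l (𝓝 (H x))) {x : E4} (hx : 1 < R3 x) :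
    pull τ H x = H x := by
  rw [pull, hJ]
  refine tendsto_nhds_unique ((tendsto_const_nhds.mul (hl _ (by rwa [hR]))).mul
    tendsto_const_nhds) ((hl x hx).congr' ?_)
  filter_upwards [hT.eventually_gt_atTop (R3 x)] with i hi
  have h6 := e i x ⟨hx, hi⟩
  rw [pull, hJ] at h6
  exact h6.symm

end Pool.Agent.Lib.MP_94aef8_gt.LL
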