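import Pool.Agent.Lib.MP_94aef8_gt.L.Loc
import Pool.Agent.Lib.MP_94aef8_gt.L.Sym
import Pool.Agent.Lib.MP_94aef8_gt.F.Lim

/-! The limit of a sequence of almost solutions on larger and larger balls. -/

open scoped Manifold ContDiff Topology ENNReal
open Matrix Filter Set MeasureTheory Real

namespace Pool.Agent.Lib.MP_94aef8_gt.LL

open FL E2

/-- The hypotheses on a tensor field on the ball of radius `T`, with smallness `1 / N` and size
`m`. -/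
structure BH (C1 N m β μ T k : ℝ) (h : Tn) : Prop where
  hβ : N * |β| ≤ 1
  μ0 : 0 ≤ μ
  hμ : N * μ ≤ 1
  hT : N ≤ T
  hk : N ≤ k
  sy : SymT h (OT T)
  inv : ∀ τ ∈ Four k, ∀ x ∈ OT T, pull τ h x = h x
  b0 : ∀ x ∈ OT T, ipT (GB β) h h x ≤ C1 * m / R3 x
  b1 : ∀ x ∈ OT T, R3 x ^ 2 * |ipD (GB β) h h x| ≤ C1 * m / R3 x
  ib : IB β μ T h (m / N)

variable {C1 : ℝ} {β μ T k : ℕ → ℝ} {h : ℕ → Tn}

theorem lim_loc (H : ∀ i : ℕ, BH C1 (i + 1) 1 (β i) (μ i) (T i) (k i) (h i)) {x : E4}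
    (hx : 1 < R3 x) : ∃ (V : Set E4) (K : ℝ), IsOpen V ∧ x ∈ V ∧ 0 ≤ K ∧ ∀ᶠ i : ℕ in atTop,
      V ⊆ OT (T i) ∧ (∀ a b, ∀ w : List (Fin 4), w.length ≤ 4 → ∀ y ∈ V,
        pdw w (fun z => h i z a b) y ^ 2 ≤ K * (|C1| + 1 / ((i : ℝ) + 1))) ∧
      ∀ a b, Pop (μ i) (GB (β i)) (h i) x a b ^ 2 ≤ K * (1 / ((i : ℝ) + 1)) := by
  obtain ⟨V, T0, K, hV, hxV, hK, hb⟩ := bub_loc hx
  refine ⟨V, K, hV, hxV, hK, ?_⟩
  filter_upwards [tendsto_natCast_atTop_atTop (R := ℝ).eventually_ge_atTop T0] with i hi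
  have h0 : (0 : ℝ) ≤ i := Nat.cast_nonneg i
  have h1 := (H i).hβ
  have h2 := (H i).hμ
  have h3 := (H i).μ0
  have h4 := (H i).hT
  refine hb (β i) (μ i) (T i) |C1| (1 / ((i : ℝ) + 1)) (h i)
    (by nlinarith [mul_nonneg h0 (abs_nonneg (β i))]) h3 (by nlinarith [mul_nonneg h0 h3])
    (by linarith) (abs_nonneg _) (by positivity) (H i).sy.smooth (fun y hy => ?_) (H i).ib
  refine ((H i).b0 y hy).trans ?_
  rw [mul_one, div_le_iff₀ (one_pos.trans hy.1)]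
  exact (le_abs_self _).trans (le_mul_of_one_le_right (abs_nonneg _) hy.1.le)

/-- `limU` with `m = 3` for every entry; the local bounds come from `bub_loc` with `a = |C1|`,
`b = 1` (`IB` is monotone in `b`; `|f| ≤ √B` from `f ^ 2 ≤ B`). -/
theorem exists_lim (H : ∀ i : ℕ, BH C1 (i + 1) 1 (β i) (μ i) (T i) (k i) (h i)) (l : Ultrafilter ℕ)
    (hl : (l : Filter ℕ) ≤ atTop) : ∃ L : Tn, (∀ a b, ContDiffOn ℝ 3 (fun x => L x a b) OO) ∧
      ∀ a b, ∀ w : List (Fin 4), w.length ≤ 3 → TendstoLocallyUniformlyOn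
        (fun i => pdw w fun x => h i x a b) (pdw w fun x => L x a b) (l : Filter ℕ) OO := by
  have key : ∀ a b, ∃ L : Fn, ContDiffOn ℝ (3 : ℕ) L OO ∧ ∀ w : List (Fin 4), w.length ≤ 3 →
      TendstoLocallyUniformlyOn (fun i => pdw w fun x => h i x a b) (pdw w L) (l : Filter ℕ) OO := by
    intro a b
    refine limU l isOpen_OO 3 (fun i x => h i x a b) fun x hx => ?_
    obtain ⟨V, K, hV, hxV, hK, hb⟩ := lim_loc H hx
    refine ⟨V, hV, hxV, √(K * (|C1| + 1)), (hb.filter_mono hl).mono fun i hi =>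
      ⟨((H i).sy.smooth a b).mono hi.1, fun w hw y hy => Real.abs_le_sqrt ?_⟩⟩
    refine (hi.2.1 a b w hw y hy).trans (mul_le_mul_of_nonneg_left ?_ hK)
    have h0 : (0 : ℝ) ≤ i := Nat.cast_nonneg i
    have h1 : 1 / ((i : ℝ) + 1) ≤ 1 := by
      rw [div_le_one (by linarith)]
      linarith
    linarith
  choose L h1 h2 using key
  exact ⟨fun x => Matrix.of fun a b => L a b x, h1, h2⟩

/-- The operators converge at a point: `GB_cv`, `cv_mt` (`GB_pos`), the class `(cv l x).T 2 0` of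
the family `fun a => a.elim L h`, `Cls.Mt.lich`, `Cls.Mt.ipT`, `Cls.Mt.ipD`, `cv_limT`, `cv_lim`. -/
theorem lim_ops {l : Filter ℕ} (hβ : Tendsto β l (𝓝 0)) {L : Tn} {x : E4} (hx : 1 < R3 x)
    (hs : ∀ᶠ i in l, ∀ a b, ContDiffAt ℝ ∞ (fun y => h i y a b) x)
    (hL : ∀ a b, ContDiffOn ℝ 3 (fun x => L x a b) OO)
    (hc : ∀ a b, ∀ w : List (Fin 4), w.length ≤ 3 →
      Tendsto (fun i => pdw w (fun y => h i y a b) x) l (𝓝 (pdw w (fun y => L y a b) x))) :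
    Tendsto (fun i => h i x) l (𝓝 (L x)) ∧
    Tendsto (fun i => lich (GB (β i)) (h i) x) l (𝓝 (lich (GB 0) L x)) ∧
    Tendsto (fun i => ipT (GB (β i)) (h i) (h i) x) l (𝓝 (ipT (GB 0) L L x)) ∧
    Tendsto (fun i => ipD (GB (β i)) (h i) (h i) x) l (𝓝 (ipD (GB 0) L L x)) := by
  have hG := cv_mt (n := 0) (GB_cv hβ hx 2) (GB_pos 0 hx).det_pos.ne'
  have hh : (cv l x).T 2 0 fun a : Option ℕ => a.elim L h := fun a b =>
    ⟨hs.mono fun i hi => (hi a b).of_le (WithTop.coe_le_coe.2 le_top),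
      ((hL a b).contDiffAt (isOpen_OO.mem_nhds hx)).of_le (by norm_num),
      fun w hw => hc a b w (by omega)⟩
  exact ⟨cv_limT hh, cv_limT (hG.lich le_rfl hh),
    cv_lim (hG.ipT (l := 0) le_rfl le_rfl (hh.levLe (by omega)) (hh.levLe (by omega))),
    cv_lim (hG.ipD (l := 0) le_rfl le_rfl (hh.levLe (by omega)) (hh.levLe (by omega)))⟩

/-- `Pop μ G h x i j ^ 2 ≤ K / (i + 1)` eventually, by the last part of `bub_loc`. -/
theorem pop_lim (H : ∀ i : ℕ, BH C1 (i + 1) 1 (β i) (μ i) (T i) (k i) (h i)) {x : E4}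
    (hx : 1 < R3 x) : Tendsto (fun i => Pop (μ i) (GB (β i)) (h i) x) atTop (𝓝 0) := by
  obtain ⟨V, K, -, -, -, hb⟩ := lim_loc H hx
  refine tendsto_pi_nhds.2 fun a => tendsto_pi_nhds.2 fun b => ?_
  have h1 : Tendsto (fun i : ℕ => √(K * (1 / ((i : ℝ) + 1)))) atTop (𝓝 0) := by
    simpa using (tendsto_one_div_add_atTop_nhds_zero_nat (𝕜 := ℝ).const_mul K).sqrt
  exact squeeze_zero_norm' (hb.mono fun i hi => Real.abs_le_sqrt (hi.2.2 a b)) h1

end Pool.Agent.Lib.MP_94aef8_gt.LL
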