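import Pool.Agent.Lib.MP_94aef8_gt.L.Lim

/-! The limit vanishes. -/

open scoped Manifold ContDiff Topology ENNReal
open Matrix Filter Set MeasureTheory Real

namespace Pool.Agent.Lib.MP_94aef8_gt.LL

open FL E2

variable {C1 : ℝ} {β μ T k : ℕ → ℝ} {h : ℕ → Tn}

theorem lim2_small {c : ℕ → ℝ} (hc : ∀ i : ℕ, ((i : ℝ) + 1) * |c i| ≤ 1) :
    Tendsto c atTop (𝓝 0) := by
  refine squeeze_zero_norm (a := fun i : ℕ => 1 / ((i : ℝ) + 1)) (fun i => ?_)
    tendsto_one_div_add_atTop_nhds_zero_nat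
  rw [Real.norm_eq_abs, le_div_iff₀ (by positivity), mul_comm]
  exact hc i

theorem lim2_top {c : ℕ → ℝ} (hc : ∀ i : ℕ, (i : ℝ) + 1 ≤ c i) : Tendsto c atTop atTop :=
  tendsto_atTop_mono (fun i => by linarith [hc i]) tendsto_natCast_atTop_atTop

/-- `tendsto_iff_ultrafilter`; for an ultrafilter `l ≤ atTop` take `L` from `exists_lim` and check
the hypotheses of `xK` (`lim_ops`, `pop_lim` with `lich = Pop μ - 2 μ h`, `OneP.lim` for `tsh` with
`c i = 4 π / k i` and for `rot` with `c i = 2 π / k i`, `lim_fix` for `fl1`, `fl2`,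
`le_of_tendsto` for the bounds); then `L x = 0` and `ipT (GB 0) L L x = 0`. -/
theorem ipT_lim (H : ∀ i : ℕ, BH C1 (i + 1) 1 (β i) (μ i) (T i) (k i) (h i)) {x : E4}
    (hx : 1 < R3 x) : Tendsto (fun i => ipT (GB (β i)) (h i) (h i) x) atTop (𝓝 0) := by
  refine (tendsto_iff_ultrafilter _ _ _).2 fun l hl => ?_
  obtain ⟨L, hL, hc⟩ := exists_lim H l hl
  have hβ : Tendsto β l (𝓝 0) := (lim2_small fun i => (H i).hβ).mono_left hl
  have hμ : Tendsto μ l (𝓝 0) := (lim2_small fun i => by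
    rw [abs_of_nonneg (H i).μ0]
    exact (H i).hμ).mono_left hl
  have hT : Tendsto T l atTop := (lim2_top fun i => (H i).hT).mono_left hl
  have hk : Tendsto k l atTop := (lim2_top fun i => (H i).hk).mono_left hl
  have hk0 : ∀ i, 0 < k i := fun i => lt_of_lt_of_le (by positivity) (H i).hk
  have mem : ∀ y, 1 < R3 y → ∀ᶠ i in (l : Filter ℕ), y ∈ OT (T i) := fun y hy =>
    (hT.eventually_gt_atTop (R3 y)).mono fun i hi => ⟨hy, hi⟩
  have ops := fun y (hy : 1 < R3 y) => lim_ops (h := h) hβ hy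
    ((mem y hy).mono fun i hi a b =>
      ((H i).sy.smooth a b).contDiffAt ((isOpen_OT _).mem_nhds hi)) hL
    fun a b w hw => (hc a b w hw).tendsto_at hy
  have b0 : ∀ y, 1 < R3 y → ipT (GB 0) L L y ≤ C1 * 1 / R3 y := fun y hy =>
    le_of_tendsto (ops y hy).2.2.1 ((mem y hy).mono fun i hi => (H i).b0 y hi)
  have b1 : ∀ y, 1 < R3 y → R3 y ^ 2 * ipD (GB 0) L L y ≤ C1 * 1 / R3 y := fun y hy =>
    le_of_tendsto ((ops y hy).2.2.2.const_mul _) ((mem y hy).mono fun i hi =>
      (mul_le_mul_of_nonneg_left (le_abs_self _) (sq_nonneg _)).trans ((H i).b1 y hi))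
  have hH : ∀ a b, ContinuousOn (fun x => L x a b) OO := fun a b => (hL a b).continuousOn
  have hl0 : ∀ a b, TendstoLocallyUniformlyOn (fun i x => h i x a b) (fun x => L x a b)
      (l : Filter ℕ) OO := fun a b => hc a b [] (by simp)
  have h0 : L x = 0 := by
    refine xK L hL (fun y hy => ?_) (fun y hy => ?_) (fun a y hy => ?_) (fun a y hy => ?_)
      (fun y hy => ?_) (fun y hy => ?_) ⟨2 * C1, fun y hy => ?_⟩ x hx
    · have h1 : Tendsto (fun i => (h i y)ᵀ) l (𝓝 (L y)ᵀ) :=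
        (continuous_id.matrix_transpose.tendsto (L y)).comp (ops y hy).1
      exact tendsto_nhds_unique_of_eventuallyEq h1 (ops y hy).1
        ((mem y hy).mono fun i hi => (H i).sy.symm y hi)
    · have h1 := ((pop_lim H hy).mono_left hl).sub ((hμ.const_mul 2).smul (ops y hy).1)
      rw [mul_zero, zero_smul, sub_zero] at h1
      refine tendsto_nhds_unique (ops y hy).2.1 (h1.congr fun i => ?_)
      rw [Pop, add_sub_cancel_right]
    · exact oneP_tsh.lim hT (hk.const_div_atTop (4 * π)) (fun i => div_pos (by positivity) (hk0 i))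
        (fun i => (H i).inv _ (by simp [Four])) hH hl0 a hy
    · exact oneP_rot.lim hT (hk.const_div_atTop (2 * π)) (fun i => div_pos (by positivity) (hk0 i))
        (fun i => (H i).inv _ (by simp [Four])) hH hl0 a hy
    · exact lim_fix jac_fl1 R3_fl1 hT (fun i => (H i).inv _ (by simp [Four]))
        (fun z hz => (ops z hz).1) hy
    · exact lim_fix jac_fl2 R3_fl2 hT (fun i => (H i).inv _ (by simp [Four]))
        (fun z hz => (ops z hz).1) hy
    · have hp : 0 < R3 y := by linarith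
      have c0 := (le_div_iff₀ hp).1 (b0 y hy)
      have c1 := (le_div_iff₀ hp).1 (b1 y hy)
      linarith
  have h1 := (ops x hx).2.2.1
  rwa [show ipT (GB 0) L L x = 0 by rw [ipT, h0, ipM_zero]] at h1

end Pool.Agent.Lib.MP_94aef8_gt.LL
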