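import Pool.Agent.Lib.MP_94aef8_gt.L.Chg
import Pool.Agent.Lib.MP_94aef8_gt.F.Prin

/-! Local bounds on the ball. -/

open scoped Manifold ContDiff Topology ENNReal
open Matrix Filter Set MeasureTheory Real

namespace Pool.Agent.Lib.MP_94aef8_gt.LL

open FL E2

/-- The integral bounds for the powers of the operator. -/
def IB (β μ T : ℝ) (h : Tn) (b : ℝ) : Prop :=
  ∀ j, 1 ≤ j → j ≤ 5 → ∀ t, ∫⁻ y in OP T t, ENNReal.ofReal
    (ipT (GB β) ((Pop μ (GB β))^[j] h) ((Pop μ (GB β))^[j] h) y) ≤ ENNReal.ofReal b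

/-- In the patch `G = GB β ∘ aff`, `k = h ∘ aff`, `μ' = σ² μ`: `Pop_iter_aff` with `c = d = 1`,
`ipM_smul`, `hsM_le_int`, `int_aff_le` (`sm_Pop_iter`, `smo_ipT`, `ipM_nonneg`), `σ ≤ 1`. -/
theorem loc_pow_le (C0 : ℝ) : ∃ K, 0 ≤ K ∧ ∀ (x0 : E4) (σ β μ T b : ℝ) (h : Tn), 0 < σ → σ ≤ 1 →
    (∀ y ∈ Kc 3, aff x0 σ y ∈ OT T) → (GoodB C0 fun y => GB β (aff x0 σ y)) → SmT h (OT T) →
    0 ≤ b → IB β μ T h b → ∀ j, 1 ≤ j → j ≤ 5 →
    hsM 0 (Q 2) ((Pop (σ ^ 2 * μ) fun y => GB β (aff x0 σ y))^[j] fun y => h (aff x0 σ y)) ≤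
      K * ((σ ^ 4)⁻¹ * b) := by
  obtain ⟨K, hK, hle⟩ := hsM_le_int C0
  refine ⟨K, hK, fun x0 σ β μ T b h hσ hσ1 hT hG hh hb hI j hj1 hj5 => ?_⟩
  have hk : SmT (fun y => h (aff x0 σ y)) (Q 3) := smT_aff hh fun y hy => hT y (Q_sub_Kc 3 hy)
  refine (hle _ _ hG (sm_Pop_iter hG.good hk _ j)).trans (mul_le_mul_of_nonneg_left ?_ hK)
  have e := Pop_iter_aff (x0 := x0) hσ.ne' one_ne_zero μ 1 (GB β) h j
  simp only [one_smul, inv_one, mul_one] at e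
  rw [e]
  have hP := sm_Pop_iter (GB_good_OT β T) hh μ j
  have h1 := int_aff_le hσ hσ1 hT (smo_ipT (GB_good_OT β T) hP hP).continuousOn
    (fun z hz => ipM_nonneg ((GB_good_OT β T).pos z hz) _) hb (hI j hj1 hj5)
  have h2 : (σ ^ 2) ^ j * (σ ^ 2) ^ j ≤ 1 :=
    mul_le_one₀ (pow_le_one₀ (by positivity) (pow_le_one₀ hσ.le hσ1)) (by positivity)
      (pow_le_one₀ (by positivity) (pow_le_one₀ hσ.le hσ1))
  simp only [ipT, ipM_smul] at h1 ⊢
  rw [integral_const_mul]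
  calc _ ≤ (σ ^ 2) ^ j * (σ ^ 2) ^ j * ((σ ^ 4)⁻¹ * b) :=
        mul_le_mul_of_nonneg_left h1 (by positivity)
    _ ≤ _ := mul_le_of_le_one_left (by positivity) h2

theorem loc_div {s t x M : ℝ} (hs : 0 < s) (hst : s ≤ t) (hx : 0 ≤ x) (h : t * x ≤ M) :
    x ≤ s⁻¹ * M := by
  rw [le_inv_mul_iff₀ hs]
  exact (mul_le_mul_of_nonneg_right hst hx).trans h

/-- `exists_cube`; `V = aff x0 σ '' Q 1`. `xD3` with `m = 5`, `r = 1`, `r' = 2` bounds
`hsM 10 (Q 1) k` (term `j = 0`: `hsM_le_int`, `volume_Q_real`; others: `loc_pow_le`), then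
`sob_pdw`, `hs_le_hsM`, `hs_mono`, `pdw_aff` with `d = 1`. For the last claim apply `xD3` with
`m = 2` to `P' k` (`sm_Pop`, `Function.iterate_succ_apply`), then `sobM`, `Pop_aff`, `aff_zero`. -/
theorem bub_loc {x0 : E4} (hx : 1 < R3 x0) : ∃ (V : Set E4) (T0 K : ℝ), IsOpen V ∧ x0 ∈ V ∧
    0 ≤ K ∧ ∀ (β μ T a b : ℝ) (h : Tn), |β| ≤ 1 → 0 ≤ μ → μ ≤ 1 → T0 ≤ T → 0 ≤ a → 0 ≤ b →
      SmT h (OT T) → (∀ y ∈ OT T, ipT (GB β) h h y ≤ a) → IB β μ T h b →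
      V ⊆ OT T ∧ (∀ i j, ∀ w : List (Fin 4), w.length ≤ 4 → ∀ y ∈ V,
        pdw w (fun z => h z i j) y ^ 2 ≤ K * (a + b)) ∧
      ∀ i j, Pop μ (GB β) h x0 i j ^ 2 ≤ K * b := by
  obtain ⟨σ, T0, C0, hσ, hσ1, hT0, hG0⟩ := exists_cube hx
  obtain ⟨K1, hK1, h1⟩ := loc_pow_le C0
  obtain ⟨K0, hK0, h0⟩ := hsM_le_int C0
  obtain ⟨v, hv, hvol⟩ := volume_Q_real
  obtain ⟨C5, hC5, h5⟩ := xD3 C0 (m := 5) le_rfl (r := 1) (r' := 2) one_pos one_lt_two (by norm_num)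
  obtain ⟨C2, hC2, h2⟩ := xD3 C0 (m := 2) (by norm_num) (r := 1) (r' := 2) one_pos one_lt_two
    (by norm_num)
  obtain ⟨Cs, hCs, hs⟩ := sob_pdw (r := 1) one_pos
  obtain ⟨CM, hCM, hM⟩ := sobM (r := 1) one_pos
  have hz : (0 : E4) ∈ Q 1 := fun i => by simp
  set L := K0 * v + K1 * (σ ^ 4)⁻¹ with hL
  have hL0 : 0 ≤ L := by positivity
  set A := (σ ^ 8)⁻¹ * (Cs * (C5 * (6 * L))) with hA
  set B := (σ ^ 4)⁻¹ * (CM * (C2 * (3 * (K1 * (σ ^ 4)⁻¹)))) with hB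
  have hA0 : 0 ≤ A := by positivity
  have hB0 : 0 ≤ B := by positivity
  refine ⟨aff x0 σ '' Q 1, T0, A + B, isOpen_aff_image hσ (isOpen_Q 1), ⟨0, hz, aff_zero _ _⟩,
    by positivity, fun β μ T a b h hβ hμ hμ1 hT ha hb hh hia hI => ?_⟩
  have hT3 : ∀ y ∈ Kc 3, aff x0 σ y ∈ OT T := fun y hy => OT_mono hT (hT0 y hy)
  have hQ3 : ∀ y ∈ Q 3, aff x0 σ y ∈ OT T := fun y hy => hT3 y (Q_sub_Kc 3 hy)
  have hG := hG0 β hβ
  have hk : SmT (fun y => h (aff x0 σ y)) (Q 3) := smT_aff hh hQ3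
  have hμ0 : 0 ≤ σ ^ 2 * μ := by positivity
  have hμ3 : σ ^ 2 * μ ≤ 3 :=
    (mul_le_one₀ (pow_le_one₀ hσ.le hσ1) hμ hμ1).trans (by norm_num)
  have hj := h1 x0 σ β μ T b h hσ hσ1 hT3 hG hh hb hI
  refine ⟨?_, fun i j w hw y hy => ?_, fun i j => ?_⟩
  · rintro _ ⟨y, hy, rfl⟩
    exact hQ3 y (Q_mono (by norm_num) hy)
  · obtain ⟨y, hy, rfl⟩ := hy
    have hsum : ∑ j ∈ Finset.range (5 + 1), hsM 0 (Q 2)
        ((Pop (σ ^ 2 * μ) fun y => GB β (aff x0 σ y))^[j] fun y => h (aff x0 σ y)) ≤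
        6 * L * (a + b) := by
      refine (Finset.sum_le_card_nsmul _ _ (L * (a + b)) fun j hj' => ?_).trans_eq (by
        rw [Finset.card_range, nsmul_eq_mul]
        push_cast
        ring)
      rcases Nat.eq_zero_or_pos j with rfl | hp
      · refine (h0 _ _ hG hk).trans ?_
        have := hvol (ipT (fun y => GB β (aff x0 σ y)) (fun y => h (aff x0 σ y))
          fun y => h (aff x0 σ y)) a fun y hy =>
            ⟨ipM_nonneg (hG.good.pos y (Q_mono (by norm_num) hy)) _,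
              hia _ (hQ3 y (Q_mono (by norm_num) hy))⟩
        refine (mul_le_mul_of_nonneg_left this hK0).trans ?_
        rw [← mul_assoc]
        exact mul_le_mul (le_add_of_nonneg_right (by positivity)) (le_add_of_nonneg_right hb) ha hL0
      · refine (hj j hp (Nat.lt_succ_iff.1 (Finset.mem_range.1 hj'))).trans ?_
        rw [← mul_assoc]
        exact mul_le_mul (le_add_of_nonneg_left (by positivity)) (le_add_of_nonneg_left ha) hb hL0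
    have e1 := hs 3 _ w (by norm_num) (hk i j) y hy
    have e2 := ((hs_mono (k := 2 * 5) (by omega : 4 + w.length ≤ 2 * 5) (Q 1) _).trans
      (hs_le_hsM (2 * 5) (Q 1) (fun y => h (aff x0 σ y)) i j)).trans
      ((h5 _ _ _ hG hμ0 hμ3 hk).trans (mul_le_mul_of_nonneg_left hsum hC5))
    have e3 := congrFun (pdw_aff (x0 := x0) hσ.ne' 1 (fun z => h z i j) w) y
    simp only [one_mul] at e3
    rw [e3, mul_pow] at e1
    have e4 : σ ^ 8 ≤ (σ ^ w.length) ^ 2 := by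
      rw [← pow_mul]
      exact pow_le_pow_of_le_one hσ.le hσ1 (by omega)
    refine (loc_div (by positivity) e4 (sq_nonneg _)
      (e1.trans (mul_le_mul_of_nonneg_left e2 hCs))).trans ?_
    calc _ = A * (a + b) := by rw [hA]; ring
      _ ≤ _ := mul_le_mul_of_nonneg_right (le_add_of_nonneg_right hB0) (by positivity)
  · have hP := sm_Pop hG.good hk (σ ^ 2 * μ)
    have hsum : ∑ j ∈ Finset.range (2 + 1), hsM 0 (Q 2)
        ((Pop (σ ^ 2 * μ) fun y => GB β (aff x0 σ y))^[j]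
          (Pop (σ ^ 2 * μ) (fun y => GB β (aff x0 σ y)) fun y => h (aff x0 σ y))) ≤
        3 * (K1 * ((σ ^ 4)⁻¹ * b)) := by
      refine (Finset.sum_le_card_nsmul _ _ (K1 * ((σ ^ 4)⁻¹ * b)) fun j hj' => ?_).trans_eq (by
        rw [Finset.card_range, nsmul_eq_mul]
        push_cast
        ring)
      have := Finset.mem_range.1 hj'
      rw [← Function.iterate_succ_apply]
      exact hj (j + 1) (by omega) (by omega)
    have e1 := (sq_le_fro _ i j).trans ((hM 3 _ (by norm_num) hP 0 hz).trans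
      (mul_le_mul_of_nonneg_left ((h2 _ _ _ hG hμ0 hμ3 hP).trans
        (mul_le_mul_of_nonneg_left hsum hC2)) hCM.le))
    have e3 := congrFun (Pop_aff (x0 := x0) hσ.ne' one_ne_zero μ 1 (GB β) h) 0
    simp only [one_smul, inv_one, mul_one, aff_zero] at e3
    rw [e3, Matrix.smul_apply, smul_eq_mul, mul_pow, ← pow_mul] at e1
    refine (loc_div (by positivity) le_rfl (sq_nonneg _) e1).trans ?_
    calc _ = B * b := by rw [hB]; ring
      _ ≤ _ := mul_le_mul_of_nonneg_right (le_add_of_nonneg_left hA0) hb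

end Pool.Agent.Lib.MP_94aef8_gt.LL
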