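import Pool.Agent.Lib.MP_94aef8_gt.L.Sym

/-! The tensor field on a ball in unit scale. -/

open scoped Manifold ContDiff Topology ENNReal
open Matrix Filter Set MeasureTheory Real

namespace Pool.Agent.Lib.MP_94aef8_gt.LL

open FL E2

variable {M : Type} [TopologicalSpace M] [ChartedSpace E4 M]

/-- The weight of the coercivity estimate times `|h|²`. -/
noncomputable def dW (g : M → Mat) (s : M → ℝ) (s0 : ℝ) (h : M → Mat) (x : M) : ℝ :=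
  ((s x * (1 + s x / s0)) ^ 2)⁻¹ * n0 g h x

/-- The components of `h` on the ball in unit scale. -/
noncomputable def unitT (Ψ : E4 → M) (ϱ : ℝ) (h : M → Mat) : Tn :=
  fun y => (ϱ ^ 2)⁻¹ • gpull Ψ h y

variable [IsManifold (𝓡 4) ∞ M] {g h f : M → Mat} {s : M → ℝ} {Ψ : E4 → M} {ϱ β T s0 : ℝ}

omit [IsManifold (𝓡 4) ∞ M] in
theorem m0_term (hg : GoodT g) (s : M → ℝ) (f : M → Mat) (x : M) (i : ℕ) :
    0 ≤ s x ^ (4 * i + 2) * n0 g ((GP g)^[i] f) x :=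
  mul_nonneg (Even.pow_nonneg ⟨2 * i + 1, by ring⟩ _) (n0_nonneg hg _ x)

theorem m0_cont (hg : GoodT g) (hs : Continuous s) (hf : SmG f) (i : ℕ) :
    Continuous fun x => s x ^ (4 * i + 2) * n0 g ((GP g)^[i] f) x :=
  (hs.pow _).mul (sm_n0 hg (smG_GP_iter hg hf i)).continuous

omit [IsManifold (𝓡 4) ∞ M] in
theorem m0_G (hϱ : 0 < ϱ) (hG : ∀ x ∈ OT T, gpull Ψ g x = ϱ ^ 2 • GB β x) {x : E4}
    (hx : x ∈ OT T) : GB β =ᶠ[𝓝 x] fun y => (ϱ ^ 2)⁻¹ • gpull Ψ g y := by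
  filter_upwards [(isOpen_OT T).mem_nhds hx] with y hy
  rw [hG y hy, smul_smul, inv_mul_cancel₀ (pow_pos hϱ 2).ne', one_smul]

theorem m0_PP (G : Tn) : PP G = Pop 3 G := by
  funext h p
  simp only [PP, Pop]
  norm_num

theorem dY_nonneg (hg : GoodT g) (s : M → ℝ) (f : M → Mat) (x : M) : 0 ≤ dY g s f x :=
  Finset.sum_nonneg fun i _ => m0_term hg s f x i

theorem continuous_dY (hg : GoodT g) (hs : Continuous s) (hf : SmG f) : Continuous (dY g s f) :=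
  continuous_finsetSum _ fun i _ => m0_cont hg hs hf i

theorem term_le_dY (hg : GoodT g) (s : M → ℝ) (f : M → Mat) (x : M) {i : ℕ} (hi : i < 5) :
    s x ^ (4 * i + 2) * n0 g ((GP g)^[i] f) x ≤ dY g s f x :=
  Finset.single_le_sum (f := fun i => s x ^ (4 * i + 2) * n0 g ((GP g)^[i] f) x)
    (fun i _ => m0_term hg s f x i) (Finset.mem_range.2 hi)

theorem dW_nonneg (hg : GoodT g) (s : M → ℝ) (s0 : ℝ) (h : M → Mat) (x : M) :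
    0 ≤ dW g s s0 h x :=
  mul_nonneg (inv_nonneg.2 (sq_nonneg _)) (n0_nonneg hg h x)

theorem continuous_dW (hg : GoodT g) (hs : Continuous s) (hp : ∀ x, 0 < s x) (h0 : 0 < s0)
    (hh : SmG h) : Continuous (dW g s s0 h) := by
  refine Continuous.mul (Continuous.inv₀ (by fun_prop) fun x => ?_) (sm_n0 hg hh).continuous
  have := hp x
  positivity

theorem NY2_eq [CompactSpace M] [MeasurableSpace M] [BorelSpace M] (hg : GoodT g)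
    (hs : Continuous s) (hf : SmG f) : NY2 g s f = ∫ x, dY g s f x ∂volT g :=
  (integral_finsetSum _ fun i _ => hg.integrable (m0_cont hg hs hf i)).symm

theorem unit_sym (hΨ : Pt Ψ (OT T)) (hh : SmG h) (hs : ∀ x, (h x).IsSymm) (ϱ : ℝ) :
    SymT (unitT Ψ ϱ h) (OT T) :=
  ⟨smo_smul _ (hh.patch hΨ), fun p _ => by
    have e : (gpull Ψ h p).IsSymm := gpull_symm (hs (Ψ p))
    rw [unitT, transpose_smul, e.eq]⟩

/-- `Pt.inv_pull`, `ldif_four`. -/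
theorem unit_inv (hΨ : Pt Ψ (OT T)) {F : M → M} (hF : Pt F univ) (e : ∀ x, gpull F h x = h x)
    {k : ℝ} {τ : E4 → E4} (hτ : τ ∈ Four k) (he : ∀ x ∈ OT T, F (Ψ x) = Ψ (τ x)) (ϱ : ℝ) :
    ∀ x ∈ OT T, pull τ (unitT Ψ ϱ h) x = unitT Ψ ϱ h x := by
  intro x hx
  have h1 := hΨ.inv_pull hF e (ldif_four hτ) he hx
  rw [pull] at h1
  simp only [pull, unitT]
  rw [Matrix.mul_smul, Matrix.smul_mul, h1]

/-- `Pt.n0_eq`, `ipM_scale`. -/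
theorem unit_n0 (hΨ : Pt Ψ (OT T)) (hϱ : 0 < ϱ)
    (hG : ∀ x ∈ OT T, gpull Ψ g x = ϱ ^ 2 • GB β x) (h : M → Mat) {x : E4} (hx : x ∈ OT T) :
    ipT (GB β) (unitT Ψ ϱ h) (unitT Ψ ϱ h) x = n0 g h (Ψ x) := by
  rw [hΨ.n0_eq hx, ipT, (m0_G hϱ hG hx).eq_of_nhds]
  exact ipM_scale _ _ _ (inv_ne_zero (pow_pos hϱ 2).ne')

/-- `Pt.GD_eq`, `ipD_scale` with `c = d = (ϱ ^ 2)⁻¹`, `ipD_congr`. -/
theorem unit_GD (hΨ : Pt Ψ (OT T)) (hϱ : 0 < ϱ) (hg : GoodT g) (hh : SmG h)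
    (hG : ∀ x ∈ OT T, gpull Ψ g x = ϱ ^ 2 • GB β x) {x : E4} (hx : x ∈ OT T) :
    ipD (GB β) (unitT Ψ ϱ h) (unitT Ψ ϱ h) x = ϱ ^ 2 * GD g h h (Ψ x) := by
  have h0 := (pow_pos hϱ 2).ne'
  rw [hΨ.GD_eq hx hg hh hh, ipD_congr (m0_G hϱ hG hx) EventuallyEq.rfl]
  refine (congrFun (FL.ipD_scale (inv_ne_zero h0) (ϱ ^ 2)⁻¹ (gpull Ψ g) (gpull Ψ h)) x).trans ?_
  congr 1
  field_simp

/-- `Pt.GP_iter_eq`, `PP = Pop 3`, `Pop_iter_scale` with `c = d = (ϱ ^ 2)⁻¹`, `Pop_iter_congr`. -/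
theorem unit_pow (hΨ : Pt Ψ (OT T)) (hϱ : 0 < ϱ) (hg : GoodT g) (hh : SmG h)
    (hG : ∀ x ∈ OT T, gpull Ψ g x = ϱ ^ 2 • GB β x) (j : ℕ) {x : E4} (hx : x ∈ OT T) :
    (Pop (3 * ϱ ^ 2) (GB β))^[j] (unitT Ψ ϱ h) x =
      (ϱ ^ 2) ^ j • unitT Ψ ϱ ((GP g)^[j] h) x := by
  have h1 := congrFun (Pop_iter_scale (inv_ne_zero (pow_pos hϱ 2).ne') 3 (ϱ ^ 2)⁻¹ (gpull Ψ g)
    (gpull Ψ h) j) x
  rw [inv_inv, mul_comm (ϱ ^ 2) 3] at h1
  rw [(Pop_iter_congr _ (m0_G hϱ hG hx) EventuallyEq.rfl j).eq_of_nhds]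
  refine h1.trans ?_
  simp only [unitT]
  rw [hΨ.GP_iter_eq hx hg hh, m0_PP, smul_smul]

end Pool.Agent.Lib.MP_94aef8_gt.LL
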