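import Pool.Agent.Lib.MP_94aef8_gt.L.M0
import Pool.Agent.Lib.MP_94aef8_gt.L.Loc

/-! Pointwise and integral bounds on a ball of the manifold. -/

open scoped Manifold ContDiff Topology ENNReal
open Matrix Filter Set MeasureTheory Real

namespace Pool.Agent.Lib.MP_94aef8_gt.LL

open FL E2

theorem m1_patch {Z : CM} {g : Z.M → Mat} (hg : GoodT g) {Θ : E4 → Z.M} (hΘ : Pt Θ (Q 3))
    {c : ℝ} (hc : 0 ≤ c) {V : Set Z.M}
    (H : ∀ F : Z.M → ℝ≥0∞, Measurable F →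
      ∫⁻ y in Q 2, F (Θ y) ≤ ENNReal.ofReal c * ∫⁻ z in V, F z ∂volT g)
    {F : Z.M → ℝ} (hF : Continuous F) (h0 : ∀ z, 0 ≤ F z) :
    IntegrableOn (fun y => F (Θ y)) (Q 2) ∧
      ∫ y in Q 2, F (Θ y) ≤ c * ∫ z in V, F z ∂volT g := by
  have hi : IntegrableOn (fun y => F (Θ y)) (Q 2) :=
    integrableOn_Q (R := 3) (by norm_num) (hF.comp_continuousOn hΘ.smooth.continuousOn)
  refine ⟨hi, ?_⟩
  have h1 := H (fun z => ENNReal.ofReal (F z)) hF.measurable.ennreal_ofReal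
  rw [← hg.ofReal_int hF h0 V, ← ENNReal.ofReal_mul hc,
    ← ofReal_integral_eq_lintegral_ofReal hi (Eventually.of_forall fun y => h0 _)] at h1
  exact (ENNReal.ofReal_le_ofReal_iff
    (mul_nonneg hc (integral_nonneg fun z => h0 z))).1 h1

theorem m1_w {a n s0 c : ℝ} (ha : 0 < a) (hn : 0 ≤ n) (h0 : 0 < s0) (h1 : a ≤ s0) (h2 : a ≤ c) :
    n ≤ 4 * c ^ 2 * (((a * (1 + a / s0)) ^ 2)⁻¹ * n) := by
  have h3 : a / s0 ≤ 1 := (div_le_one h0).2 h1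
  have h4 : 0 ≤ a / s0 := by positivity
  have h5 : 0 < a * (1 + a / s0) := by positivity
  have h6 : a * (1 + a / s0) ≤ c * 2 :=
    mul_le_mul h2 (by linarith) (by linarith) (ha.le.trans h2)
  have h7 : (a * (1 + a / s0)) ^ 2 ≤ 4 * c ^ 2 := by
    have := pow_le_pow_left₀ h5.le h6 2
    linarith
  have h8 : 0 ≤ ((a * (1 + a / s0)) ^ 2)⁻¹ * n := by positivity
  calc n = (a * (1 + a / s0)) ^ 2 * (((a * (1 + a / s0)) ^ 2)⁻¹ * n) := by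
        rw [← mul_assoc, mul_inv_cancel₀ (pow_pos h5 2).ne', one_mul]
    _ ≤ _ := mul_le_mul_of_nonneg_right h7 h8

theorem m1_num {C σ ϱ R W Y a b : ℝ} (hC : 0 < C) (hσ : 0 < σ) (hϱ : 0 < ϱ) (hR : 0 < R)
    (hW : 0 ≤ W) (hY : 0 ≤ Y) (h1 : ϱ * R ≤ C * σ)
    (ha : a ≤ 4 * (C * σ) ^ 2 * (C * (ϱ * σ ^ 3)⁻¹ * W)) (hb : b ≤ C * (ϱ * σ ^ 3)⁻¹ * Y) :
    a + σ ^ 2 * b ≤ (4 * C ^ 2 + 1) * C ^ 2 * ((W + Y) / ϱ ^ 2) / R := by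
  have h2 : σ ^ 2 * (C * (ϱ * σ ^ 3)⁻¹) = C / (ϱ * σ) := by field_simp
  have h3 : C / (ϱ * σ) ≤ C ^ 2 / (ϱ ^ 2 * R) := by
    rw [div_le_div_iff₀ (by positivity) (by positivity)]
    have := mul_le_mul_of_nonneg_left h1 (mul_pos hC hϱ).le
    nlinarith
  have h4 : 0 ≤ C ^ 2 / (ϱ ^ 2 * R) := by positivity
  have h5 : a ≤ 4 * C ^ 2 * (C ^ 2 / (ϱ ^ 2 * R) * W) := by
    refine ha.trans ?_
    have : 4 * (C * σ) ^ 2 * (C * (ϱ * σ ^ 3)⁻¹ * W) = 4 * C ^ 2 * (C / (ϱ * σ) * W) := by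
      rw [← h2]; ring
    rw [this]
    exact mul_le_mul_of_nonneg_left (mul_le_mul_of_nonneg_right h3 hW) (by positivity)
  have h6 : σ ^ 2 * b ≤ C ^ 2 / (ϱ ^ 2 * R) * Y := by
    refine (mul_le_mul_of_nonneg_left hb (by positivity)).trans ?_
    rw [← mul_assoc, h2]
    exact mul_le_mul_of_nonneg_right h3 hY
  have h7 : (4 * C ^ 2 + 1) * C ^ 2 * ((W + Y) / ϱ ^ 2) / R =
      (4 * C ^ 2 + 1) * (C ^ 2 / (ϱ ^ 2 * R) * W + C ^ 2 / (ϱ ^ 2 * R) * Y) := by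
    field_simp
  rw [h7]
  have h8 := mul_nonneg h4 hW
  have h9 := mul_nonneg h4 hY
  have h10 : 0 ≤ C ^ 2 := by positivity
  nlinarith [mul_nonneg h10 h9]

/-- `BSys.p5` gives a patch `Θ` of scale `σ` with `Θ 0 = Ψ b x`, so `s (Θ 0) = ϱ R`, `R = R3 x`,
`0 < C`, `σ ≤ C ϱ R`, `ϱ R ≤ C σ`. On the patch `s ≤ C σ ≤ C² ϱ R ≤ s0`, hence
`n0 ≤ 4 C² σ² dW`. By `xPatch` and the inequality of `p5` for `F = ofReal (dW + dY)`
(`GoodT.ofReal_int`, `ofReal_integral_eq_lintegral_ofReal`, `integrableOn_Q`)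
`n0 + σ² |GD| ≤ K (4 C² + 1) σ² C (W + Y) / (ϱ σ³)`, and `1 / σ ≤ C / (ϱ R)`, `(ϱ R)² ≤ C² σ²`. -/
theorem pt_bound (C : ℝ) : ∃ K1, 0 ≤ K1 ∧ ∀ (Z : CM) (g h : Z.M → Mat) (s : Z.M → ℝ)
    (S : Set (Z.M → Z.M)) (A ϱ β T k κ s0 : ℝ) (B : Type) [Fintype B] (U : B → Set Z.M)
    (Ψ : B → E4 → Z.M), GoodT g → SmG h → BSys g s S C A ϱ β T k κ s0 U Ψ → 0 < ϱ → 0 < s0 →
    ∀ b, ∀ x ∈ OT T, (C ^ 2 + 1) * (ϱ * R3 x) ≤ s0 →
      n0 g h (Ψ b x) ≤ K1 * (((∫ z in U b, dW g s s0 h z ∂volT g) +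
        ∫ z in U b, dY g s (GP g h) z ∂volT g) / ϱ ^ 2) / R3 x ∧
      (ϱ * R3 x) ^ 2 * |GD g h h (Ψ b x)| ≤ K1 * (((∫ z in U b, dW g s s0 h z ∂volT g) +
        ∫ z in U b, dY g s (GP g h) z ∂volT g) / ϱ ^ 2) / R3 x := by
  obtain ⟨K, hK, HK⟩ := xPatch C
  refine ⟨K * ((4 * C ^ 2 + 1) * C ^ 2) * (1 + C ^ 2), by positivity, ?_⟩
  intro Z g h s S A ϱ β T k κ s0 B _ U Ψ hg hh H hϱ hs0 b x hx hb
  obtain ⟨Θ, σ, hP, h0, hF⟩ := H.p5 b x hx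
  have hR : 0 < R3 x := lt_trans one_pos hx.1
  have hz : (0 : E4) ∈ Q 3 := fun i => by simp
  have hs : s (Θ 0) = ϱ * R3 x := by rw [h0]; exact H.sΨ b x hx
  have hσ := hP.σpos
  have h1 : ϱ * R3 x ≤ C * σ := hs ▸ hP.sle 0 hz
  have h2 : σ ≤ C * (ϱ * R3 x) := hs ▸ hP.sge 0 hz
  have hϱR : 0 < ϱ * R3 x := mul_pos hϱ hR
  have hC : 0 < C := by
    by_contra hn
    have : C * σ ≤ 0 := mul_nonpos_of_nonpos_of_nonneg (not_lt.1 hn) hσ.le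
    linarith
  have h3 : C * σ ≤ s0 := by
    have := mul_le_mul_of_nonneg_left h2 hC.le
    nlinarith
  have hc : 0 ≤ C * (ϱ * σ ^ 3)⁻¹ := by positivity
  obtain ⟨iW, hW⟩ := m1_patch hg hP.pt hc hF (continuous_dW hg H.cont H.pos hs0 hh)
    (dW_nonneg hg s s0 h)
  obtain ⟨-, hY⟩ := m1_patch hg hP.pt hc hF (continuous_dY hg H.cont (smG_GP hg hh))
    (dY_nonneg hg s (GP g h))
  obtain ⟨iN, -⟩ := m1_patch hg hP.pt hc hF (sm_n0 hg hh).continuous (n0_nonneg hg h)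
  have hW0 : 0 ≤ ∫ z in U b, dW g s s0 h z ∂volT g := integral_nonneg fun z => dW_nonneg hg s s0 h z
  have hY0 : 0 ≤ ∫ z in U b, dY g s (GP g h) z ∂volT g :=
    integral_nonneg fun z => dY_nonneg hg s (GP g h) z
  have hN : ∫ y in Q 2, n0 g h (Θ y) ≤
      4 * (C * σ) ^ 2 * (C * (ϱ * σ ^ 3)⁻¹ * ∫ z in U b, dW g s s0 h z ∂volT g) := by
    refine le_trans ?_ (mul_le_mul_of_nonneg_left hW (by positivity))
    rw [← integral_const_mul]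
    refine setIntegral_mono_on iN (iW.const_mul _) (isOpen_Q 2).measurableSet fun y hy => ?_
    have h4 := hP.sle y (Q_mono (by norm_num) hy)
    exact m1_w (H.pos _) (n0_nonneg hg h _) hs0 (h4.trans h3) h4
  have h5 := m1_num hC hσ hϱ hR hW0 hY0 h1 hN hY
  have h6 := (HK Z g h s Θ σ hg hh H.cont H.pos hP).trans (mul_le_mul_of_nonneg_left h5 hK)
  rw [h0] at h6
  have h7 : 0 ≤ ((∫ z in U b, dW g s s0 h z ∂volT g) +
      ∫ z in U b, dY g s (GP g h) z ∂volT g) / ϱ ^ 2 := by positivity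
  generalize ((∫ z in U b, dW g s s0 h z ∂volT g) +
      ∫ z in U b, dY g s (GP g h) z ∂volT g) / ϱ ^ 2 = X at h6 h7 ⊢
  have h8 : K * ((4 * C ^ 2 + 1) * C ^ 2) * (1 + C ^ 2) * X / R3 x =
      (1 + C ^ 2) * (K * ((4 * C ^ 2 + 1) * C ^ 2 * X / R3 x)) := by ring
  have h9 : 0 ≤ K * ((4 * C ^ 2 + 1) * C ^ 2 * X / R3 x) := by positivity
  rw [h8]
  generalize K * ((4 * C ^ 2 + 1) * C ^ 2 * X / R3 x) = E at h6 h9 ⊢
  have hn := n0_nonneg hg h (Ψ b x)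
  have ha := abs_nonneg (GD g h h (Ψ b x))
  have hC2 : 0 ≤ C ^ 2 := by positivity
  have hq : 0 ≤ σ ^ 2 * |GD g h h (Ψ b x)| := by positivity
  refine ⟨by nlinarith [mul_nonneg hC2 h9], ?_⟩
  have h10 : (ϱ * R3 x) ^ 2 * |GD g h h (Ψ b x)| ≤ C ^ 2 * (σ ^ 2 * |GD g h h (Ψ b x)|) := by
    rw [← mul_assoc, ← mul_pow]
    exact mul_le_mul_of_nonneg_right (pow_le_pow_left₀ hϱR.le h1 2) ha
  have h11 : C ^ 2 * (σ ^ 2 * |GD g h h (Ψ b x)|) ≤ C ^ 2 * E :=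
    mul_le_mul_of_nonneg_left (by linarith) hC2
  nlinarith

/-- `unit_pow`, `ipM_smul`, `unit_n0` give the integrand `ϱ^(4j) n0 (P^j h) (Ψ y)`, which is at most
`ϱ² dY (Ψ y)` since `ϱ ≤ s (Ψ y)` (`term_le_dY` with `i = j - 1`); then `BSys.u2`. -/
theorem int_bound {Z : CM} {g h : Z.M → Mat} {s : Z.M → ℝ} {S : Set (Z.M → Z.M)}
    {C A ϱ β T k κ s0 : ℝ} {B : Type} [Fintype B] {U : B → Set Z.M} {Ψ : B → E4 → Z.M}
    (hg : GoodT g) (hh : SmG h) (H : BSys g s S C A ϱ β T k κ s0 U Ψ) (hϱ : 0 < ϱ) (b : B)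
    {T' m : ℝ} (hT : T' ≤ T) (hm : (∫ z in U b, dY g s (GP g h) z ∂volT g) / ϱ ^ 2 ≤ m) :
    IB β (3 * ϱ ^ 2) T' (unitT (Ψ b) ϱ h) m := by
  intro j h1 h5 t
  obtain ⟨i, rfl⟩ : ∃ i, j = i + 1 := ⟨j - 1, by omega⟩
  have hY := continuous_dY hg H.cont (smG_GP hg hh)
  have hu := H.u2 b t (fun z => ENNReal.ofReal (dY g s (GP g h) z)) hY.measurable.ennreal_ofReal
  rw [← hg.ofReal_int hY (dY_nonneg hg s (GP g h)) (U b)] at hu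
  have hsub : OP T' t ⊆ OP T t := fun y hy => ⟨OT_mono hT hy.1, hy.2⟩
  refine (lintegral_mono_set hsub).trans ?_
  have hpt : ∀ y ∈ OP T t, ENNReal.ofReal (ipT (GB β)
      ((Pop (3 * ϱ ^ 2) (GB β))^[i + 1] (unitT (Ψ b) ϱ h))
      ((Pop (3 * ϱ ^ 2) (GB β))^[i + 1] (unitT (Ψ b) ϱ h)) y) ≤
      ENNReal.ofReal (ϱ ^ 2) * ENNReal.ofReal (dY g s (GP g h) (Ψ b y)) := by
    intro y hy
    have hy1 : y ∈ OT T := hy.1
    rw [← ENNReal.ofReal_mul (by positivity)]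
    refine ENNReal.ofReal_le_ofReal ?_
    have e1 := unit_n0 (H.pt b) hϱ (H.gΨ b) ((GP g)^[i + 1] h) hy1
    unfold ipT at e1 ⊢
    rw [unit_pow (H.pt b) hϱ hg hh (H.gΨ b) (i + 1) hy1, ipM_smul, e1,
      Function.iterate_succ_apply]
    have e2 := term_le_dY hg s (GP g h) (Ψ b y) (i := i) (by omega)
    have e3 : ϱ ≤ s (Ψ b y) := by
      rw [H.sΨ b y hy1]
      exact le_mul_of_one_le_right hϱ.le hy1.1.le
    have e4 := mul_le_mul_of_nonneg_right (pow_le_pow_left₀ hϱ.le e3 (4 * i + 2))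
      (n0_nonneg hg ((GP g)^[i] (GP g h)) (Ψ b y))
    calc (ϱ ^ 2) ^ (i + 1) * (ϱ ^ 2) ^ (i + 1) * n0 g ((GP g)^[i] (GP g h)) (Ψ b y)
        = ϱ ^ 2 * (ϱ ^ (4 * i + 2) * n0 g ((GP g)^[i] (GP g h)) (Ψ b y)) := by ring
      _ ≤ _ := mul_le_mul_of_nonneg_left (e4.trans e2) (by positivity)
  refine (setLIntegral_mono' (measurableSet_OP T t) hpt).trans ?_
  rw [lintegral_const_mul' _ _ ENNReal.ofReal_ne_top]
  have e5 : ENNReal.ofReal (ϱ ^ 2) = ENNReal.ofReal ((ϱ ^ 2)⁻¹) * ENNReal.ofReal (ϱ ^ 4) := by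
    rw [← ENNReal.ofReal_mul (by positivity)]
    congr 1
    field_simp
  rw [e5, mul_assoc]
  refine (mul_le_mul_right hu _).trans ?_
  rw [← ENNReal.ofReal_mul (by positivity)]
  refine ENNReal.ofReal_le_ofReal (le_trans (le_of_eq ?_) hm)
  rw [div_eq_inv_mul]

end Pool.Agent.Lib.MP_94aef8_gt.LL
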