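import Pool.Agent.Lib.MP_94aef8_gt.L.M1
import Pool.Agent.Lib.MP_94aef8_gt.L.BubE

/-! The estimate on the balls of the manifold. -/

open scoped Manifold ContDiff Topology ENNReal
open Matrix Filter Set MeasureTheory Real

namespace Pool.Agent.Lib.MP_94aef8_gt.LL

open FL E2

theorem m2_le {K a m R : ℝ} (hK : 0 ≤ K) (h : a ≤ m) (hR : 1 < R) : K * a / R ≤ K * m / R :=
  div_le_div_of_nonneg_right (mul_le_mul_of_nonneg_left h hK) (by linarith)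

theorem m2_eps {a b c : ℝ} (hc : 0 < c) (h : ∀ ε > 0, a ≤ b + c * ε) : a ≤ b := by
  refine le_of_forall_pos_le_add fun δ hδ => ?_
  have := h (δ / c) (div_pos hδ hc)
  rwa [mul_div_cancel₀ _ hc.ne'] at this

/-- Take `K1` from `pt_bound`, `N0` from `bubE A K1`, `N = (C² + 3) N0 + |A|`, `L = e N0`. For every
`ε > 0` the field `unitT (Ψ b) ϱ h` satisfies `BH K1 N0 m β (3 ϱ²) T' k` with
`T' = min T (s0 / ((C² + 1) ϱ))`, `m = (W + N0 Y) / ϱ² + ε`; then `BSys.u1` with `F = ofReal n0`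
(`unit_n0` on `OP A 0 ⊆ OT T`), and `ε → 0`. -/
theorem bub_M (C A : ℝ) {e : ℝ} (he : 0 < e) : ∃ N L : ℝ, 1 ≤ N ∧ 0 ≤ L ∧ ∀ (Z : CM)
    (g h : Z.M → Mat) (s : Z.M → ℝ) (S : Set (Z.M → Z.M)) (ϱ β T k κ s0 : ℝ) (B : Type)
    [Fintype B] (U : B → Set Z.M) (Ψ : B → E4 → Z.M), GoodT g → (∀ F ∈ S, IsoM g F) →
    BSys g s S C A ϱ β T k κ s0 U Ψ → N ≤ k → 0 < ϱ → N * ϱ ≤ 1 → N * |β| ≤ 1 → N * ϱ ≤ s0 →
    N ≤ T → InvT S h → ∀ b,
    (ϱ ^ 2)⁻¹ * ∫ z in U b ∩ {x | s x < A * ϱ}, n0 g h z ∂volT g ≤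
      e * (∫ z in U b, dW g s s0 h z ∂volT g) + L * ∫ z in U b, dY g s (GP g h) z ∂volT g := by
  obtain ⟨K1, hK1, hpt⟩ := pt_bound C
  obtain ⟨N0, hN0, hbub⟩ := bubE A K1 he
  have hC : 0 ≤ C ^ 2 := sq_nonneg C
  have hA : 0 ≤ |A| := abs_nonneg A
  have hCN : 0 ≤ C ^ 2 * N0 := mul_nonneg hC (by linarith)
  refine ⟨(C ^ 2 + 3) * N0 + |A|, e * N0, by nlinarith, by positivity, ?_⟩
  intro Z g h s S ϱ β T k κ s0 B _ U Ψ hg hS H hk hϱ hNϱ hNβ hs0 hT hh b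
  set N := (C ^ 2 + 3) * N0 + |A| with hN
  have hN1 : (C ^ 2 + 1) * N0 ≤ N := by rw [hN]; nlinarith
  have hN3 : 3 * N0 ≤ N := by rw [hN]; nlinarith
  have hNN : N0 ≤ N := by linarith
  have hNA : A ≤ N := by rw [hN]; have := le_abs_self A; nlinarith
  have hϱ1 : ϱ ≤ 1 := by nlinarith
  have hs0' : 0 < s0 := lt_of_lt_of_le (mul_pos (by linarith) hϱ) hs0
  have hϱ2 : 0 < ϱ ^ 2 := by positivity
  have hCϱ : 0 < (C ^ 2 + 1) * ϱ := by positivity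
  set W := ∫ z in U b, dW g s s0 h z ∂volT g with hW
  set Y := ∫ z in U b, dY g s (GP g h) z ∂volT g with hY
  have hW0 : 0 ≤ W := integral_nonneg fun z => dW_nonneg hg s s0 h z
  have hY0 : 0 ≤ Y := integral_nonneg fun z => dY_nonneg hg s _ z
  set T' := min T (s0 / ((C ^ 2 + 1) * ϱ)) with hT'
  have hTT : T' ≤ T := min_le_left _ _
  have hsub : OT T' ⊆ OT T := OT_mono hTT
  have hsm : ∀ x ∈ OT T', (C ^ 2 + 1) * (ϱ * R3 x) ≤ s0 := by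
    intro x hx
    have h1 : R3 x ≤ s0 / ((C ^ 2 + 1) * ϱ) := hx.2.le.trans (min_le_right _ _)
    rw [le_div_iff₀ hCϱ] at h1
    linarith
  have hcont : Continuous (n0 g h) := (sm_n0 hg hh.smooth).continuous
  refine m2_eps (c := ϱ ^ 2 * e) (by positivity) fun ε hε => ?_
  set m := (W + N0 * Y) / ϱ ^ 2 + ε with hm
  have hNY : Y ≤ N0 * Y := by nlinarith
  have hm1 : (W + Y) / ϱ ^ 2 ≤ m := by
    have : (W + Y) / ϱ ^ 2 ≤ (W + N0 * Y) / ϱ ^ 2 :=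
      div_le_div_of_nonneg_right (by linarith) hϱ2.le
    linarith
  have hm0 : 0 < m := by
    have : 0 ≤ (W + N0 * Y) / ϱ ^ 2 := div_nonneg (by linarith) hϱ2.le
    linarith
  have hm2 : Y / ϱ ^ 2 ≤ m / N0 := by
    rw [le_div_iff₀ (by linarith)]
    have : Y / ϱ ^ 2 * N0 ≤ (W + N0 * Y) / ϱ ^ 2 := by
      rw [div_mul_eq_mul_div]
      exact div_le_div_of_nonneg_right (by linarith) hϱ2.le
    linarith
  have hBH : BH K1 N0 m β (3 * ϱ ^ 2) T' k (unitT (Ψ b) ϱ h) := by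
    have hsy := unit_sym (H.pt b) hh.smooth hh.symm ϱ
    refine ⟨?_, by positivity, ?_, ?_, by linarith, ?_, ?_, ?_, ?_, ?_⟩
    · exact (mul_le_mul_of_nonneg_right hNN (abs_nonneg β)).trans hNβ
    · have h1 : 3 * N0 * ϱ ≤ 1 := (mul_le_mul_of_nonneg_right hN3 hϱ.le).trans hNϱ
      nlinarith
    · refine le_min (by linarith) ?_
      rw [le_div_iff₀ hCϱ]
      have := mul_le_mul_of_nonneg_right hN1 hϱ.le
      linarith
    · exact ⟨fun i j => (hsy.smooth i j).mono hsub, fun p hp => hsy.symm p (hsub hp)⟩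
    · intro τ hτ x hx
      obtain ⟨F, hF, hFe⟩ := H.sym b τ hτ
      exact unit_inv (H.pt b) (hS F hF).pt (hh.inv F hF) hτ hFe ϱ x (hsub hx)
    · intro x hx
      rw [unit_n0 (H.pt b) hϱ (H.gΨ b) h (hsub hx)]
      exact (hpt Z g h s S A ϱ β T k κ s0 B U Ψ hg hh.smooth H hϱ hs0' b x (hsub hx)
        (hsm x hx)).1.trans (m2_le hK1 hm1 hx.1)
    · intro x hx
      rw [unit_GD (H.pt b) hϱ hg hh.smooth (H.gΨ b) (hsub hx), abs_mul, abs_of_pos hϱ2]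
      have h2 := (hpt Z g h s S A ϱ β T k κ s0 B U Ψ hg hh.smooth H hϱ hs0' b x (hsub hx)
        (hsm x hx)).2.trans (m2_le hK1 hm1 hx.1)
      calc R3 x ^ 2 * (ϱ ^ 2 * |GD g h h (Ψ b x)|) = (ϱ * R3 x) ^ 2 * |GD g h h (Ψ b x)| := by ring
        _ ≤ _ := h2
    · exact int_bound hg hh.smooth H hϱ b hTT hm2
  have h1 := hbub m β (3 * ϱ ^ 2) T' k _ hm0 hBH
  have h2 := H.u1 b (fun x => ENNReal.ofReal (n0 g h x))
    (ENNReal.measurable_ofReal.comp hcont.measurable)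
  have h3 : ∫⁻ y in OP A 0, ENNReal.ofReal (n0 g h (Ψ b y)) =
      ∫⁻ y in OP A 0, ENNReal.ofReal (ipT (GB β) (unitT (Ψ b) ϱ h) (unitT (Ψ b) ϱ h) y) := by
    refine setLIntegral_congr_fun (measurableSet_OP A 0) fun y hy => ?_
    have hy' : y ∈ OT T := OT_mono (hNA.trans hT) hy.1
    simp only [unit_n0 (H.pt b) hϱ (H.gΨ b) h hy']
  rw [← hg.ofReal_int hcont (n0_nonneg hg h), h3] at h2
  have h4 := h2.trans (mul_le_mul_right h1 _)
  rw [← ENNReal.ofReal_mul (by positivity),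
    ENNReal.ofReal_le_ofReal_iff (by positivity)] at h4
  rw [inv_mul_le_iff₀ hϱ2]
  refine h4.trans (le_of_eq ?_)
  rw [hm]
  field_simp

end Pool.Agent.Lib.MP_94aef8_gt.LL
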