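import Pool.Agent.Lib.MP_94aef8_gt.L.M2

/-! The linear estimate. -/

open scoped Manifold ContDiff Topology ENNReal
open Matrix Filter Set MeasureTheory Real

namespace Pool.Agent.Lib.MP_94aef8_gt

open LL

/-- The linear estimate. -/
theorem thmL (C A : ℝ) : ∃ N > 0, ∃ C', ∀ (Z : CM) (g : Z.M → Mat) (s : Z.M → ℝ)
    (S : Set (Z.M → Z.M)) (ϱ β T k κ s0 : ℝ) (B : Type) [Fintype B] (U : B → Set Z.M)
    (Ψ : B → E4 → Z.M), GoodT g → (∀ F ∈ S, IsoM g F) → BSys g s S C A ϱ β T k κ s0 U Ψ →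
    N ≤ k → 0 < ϱ → N * ϱ ≤ 1 → N * |β| ≤ 1 → N * ϱ ≤ s0 → N ≤ T → 0 < κ → κ ≤ 1 →
    ∀ h, InvT S h → NX2 g s h ≤ C' * (κ ^ 4)⁻¹ * NY2 g s (GP g h) := by
  have hC : 0 < |C| + 1 := by positivity
  have hD : 0 < C ^ 2 + 1 := by positivity
  obtain ⟨N, L, hN, hL, hb⟩ := bub_M C A (e := (C ^ 2 + 1)⁻¹) (by positivity)
  refine ⟨N, by linarith, |C| * (|C| + 1) + 2 * (C ^ 2 * L) + 1, ?_⟩
  intro Z g s S ϱ β T k κ s0 B _ U Ψ hg hS H h1 h2 h3 h4 h5 h6 k0 k1 h hh
  have hs0 : 0 < s0 := lt_of_lt_of_le (by positivity) h5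
  have hP : SmG (GP g h) := smG_GP hg hh.smooth
  have cn : Continuous (n0 g h) := (sm_n0 hg hh.smooth).continuous
  have cP : Continuous (n0 g (GP g h)) := (sm_n0 hg hP).continuous
  have cY := continuous_dY hg H.cont hP
  have cW := continuous_dW hg H.cont H.pos hs0 hh.smooth
  have cX : Continuous fun x => (s x ^ 2)⁻¹ * n0 g h x :=
    ((H.cont.pow 2).inv₀ fun x => (pow_pos (H.pos x) 2).ne').mul cn
  have cI : Continuous (ipg g (GP g h) h) := (sm_ipg hg hP hh.smooth).continuous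
  have co := H.co h hh.smooth hh.symm
  unfold NX2
  rw [NY2_eq hg H.cont hP]
  set X := ∫ x, (s x ^ 2)⁻¹ * n0 g h x ∂volT g with hX
  set Y := ∫ x, dY g s (GP g h) x ∂volT g with hY
  have Y0 : 0 ≤ Y := integral_nonneg (dY_nonneg hg s _)
  have X0 : 0 ≤ X := integral_nonneg fun x => mul_nonneg (by positivity) (n0_nonneg hg h x)
  set W := ∑ b, ∫ z in U b, dW g s s0 h z ∂volT g with hW
  have W0 : 0 ≤ W := Finset.sum_nonneg fun b _ => integral_nonneg (dW_nonneg hg s s0 h)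
  have sY : ∑ b, ∫ z in U b, dY g s (GP g h) z ∂volT g ≤ Y := by
    rw [← integral_iUnion_fintype H.meas H.disj fun b => (hg.integrable cY).integrableOn]
    exact setIntegral_le_integral (hg.integrable cY) (Eventually.of_forall (dY_nonneg hg s _))
  have mS : MeasurableSet {x | s x < A * ϱ} := (isOpen_lt H.cont continuous_const).measurableSet
  have sS : ∫ x in {x | s x < A * ϱ}, n0 g h x ∂volT g =
      ∑ b, ∫ z in U b ∩ {x | s x < A * ϱ}, n0 g h z ∂volT g := by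
    rw [← integral_iUnion_fintype (fun b => (H.meas b).inter mS)
      (fun b b' e => (H.disj e).mono inter_subset_left inter_subset_left)
      fun b => (hg.integrable cn).integrableOn]
    congr 2
    ext x
    simp only [mem_iUnion, mem_inter_iff]
    exact ⟨fun hx => (H.small x hx).imp fun b hb => ⟨hb, hx⟩, fun ⟨_, hx⟩ => hx.2⟩
  have b1 : (ϱ ^ 2)⁻¹ * ∫ x in {x | s x < A * ϱ}, n0 g h x ∂volT g ≤
      (C ^ 2 + 1)⁻¹ * W + L * Y := by
    rw [sS, Finset.mul_sum]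
    refine (Finset.sum_le_sum fun b _ =>
      hb Z g h s S ϱ β T k κ s0 B U Ψ hg hS H h1 h2 h3 h4 h5 h6 hh b).trans ?_
    rw [Finset.sum_add_distrib, ← Finset.mul_sum, ← Finset.mul_sum]
    exact add_le_add le_rfl (mul_le_mul_of_nonneg_left sY hL)
  set t : ℝ := (|C| + 1) / κ ^ 2 with ht
  have t0 : 0 < t := by positivity
  have b2 : |∫ x, ipg g (GP g h) h x ∂volT g| ≤ (t * Y + t⁻¹ * X) / 2 := by
    refine abs_integral_le_integral_abs.trans ?_
    rw [hX, hY, ← integral_const_mul, ← integral_const_mul,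
      ← integral_add ((hg.integrable cY).const_mul _) ((hg.integrable cX).const_mul _),
      ← integral_div]
    refine integral_mono (hg.integrable cI.abs) ((((hg.integrable cY).const_mul _).add
      ((hg.integrable cX).const_mul _)).div_const _) fun x => ?_
    have s0' := H.pos x
    have a1 := FL.ipM_abs_le (hg.pos x) (GP g h x) (h x) (t := t * s x ^ 2) (by positivity)
    have a2 := term_le_dY hg s (GP g h) x (i := 0) (by norm_num)
    simp only [mul_zero, zero_add, Function.iterate_zero, id] at a2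
    have a3 : t * s x ^ 2 * ipM (g x) (GP g h x) (GP g h x) ≤ t * dY g s (GP g h) x := by
      rw [mul_assoc]
      exact mul_le_mul_of_nonneg_left a2 t0.le
    have a4 : (t * s x ^ 2)⁻¹ * ipM (g x) (h x) (h x) = t⁻¹ * ((s x ^ 2)⁻¹ * n0 g h x) := by
      rw [mul_inv, mul_assoc]; rfl
    change |ipM (g x) (GP g h x) (h x)| ≤ _
    linarith
  have c1 : C * ∫ x, ipg g (GP g h) h x ∂volT g ≤ |C| * ((t * Y + t⁻¹ * X) / 2) :=
    (le_abs_self _).trans (by
      rw [abs_mul]; exact mul_le_mul_of_nonneg_left b2 (abs_nonneg _))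
  have c2 : C ^ 2 * (ϱ ^ 2)⁻¹ * ∫ x in {x | s x < A * ϱ}, n0 g h x ∂volT g ≤
      C ^ 2 * ((C ^ 2 + 1)⁻¹ * W + L * Y) := by
    rw [mul_assoc]
    exact mul_le_mul_of_nonneg_left b1 (sq_nonneg _)
  have c3 : |C| * (|C| + 1)⁻¹ ≤ 1 := by
    rw [← div_eq_mul_inv, div_le_one hC]; linarith
  have c4 : C ^ 2 * ((C ^ 2 + 1)⁻¹ * W) ≤ W := by
    rw [← mul_assoc]
    refine mul_le_of_le_one_left W0 ?_
    rw [← div_eq_mul_inv, div_le_one hD]; linarith
  have c5 : |C| * (t⁻¹ * X) ≤ κ ^ 2 * X := by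
    rw [← mul_assoc, ht, inv_div, ← mul_div_assoc, mul_comm |C|, mul_div_assoc, div_eq_mul_inv]
    exact mul_le_mul_of_nonneg_right (mul_le_of_le_one_right (by positivity) c3) X0
  have co' : κ ^ 2 * X + W ≤ C * ∫ x, ipg g (GP g h) h x ∂volT g +
      C ^ 2 * (ϱ ^ 2)⁻¹ * ∫ x in {x | s x < A * ϱ}, n0 g h x ∂volT g := co
  have d1 : κ ^ 2 * X ≤ |C| * t * Y + 2 * (C ^ 2 * L) * Y := by nlinarith
  have k2 : κ ^ 2 ≤ 1 := pow_le_one₀ k0.le k1
  have k4 : κ ^ 4 ≤ 1 := pow_le_one₀ k0.le k1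
  have d2 : κ ^ 4 * X ≤ |C| * (|C| + 1) * Y + 2 * (C ^ 2 * L) * Y := by
    have e1 : κ ^ 2 * (|C| * t * Y) = |C| * (|C| + 1) * Y := by
      rw [ht]; field_simp
    have e2 : κ ^ 2 * (2 * (C ^ 2 * L) * Y) ≤ 2 * (C ^ 2 * L) * Y :=
      mul_le_of_le_one_left (by positivity) k2
    have := mul_le_mul_of_nonneg_left d1 (sq_nonneg κ)
    nlinarith
  rw [mul_right_comm, ← div_eq_mul_inv, le_div_iff₀ (by positivity)]
  nlinarith [mul_le_of_le_one_left Y0 k4]

end Pool.Agent.Lib.MP_94aef8_gt
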